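import Pool.Agent.Run7.h583.Defs

/-! The moment inequalities satisfied by a unit-interval density whose autoconvolution is at most
`M` almost everywhere. -/

set_option autoImplicit false

open MeasureTheory Set Complex Finset
open scoped ENNReal Convolution Real

namespace Run7.h583

/-- `e k v = exp (π i k v)` -/
noncomputable def e (k : ℕ) (v : ℝ) : ℂ := Complex.exp (((π * k * v : ℝ) : ℂ) * I)

/-- real trigonometric polynomial with complex coefficients `t 0, ..., t n` -/
noncomputable def tp (t : ℕ → ℂ) (n : ℕ) (v : ℝ) : ℝ := ∑ k ∈ range (n + 1), (t k * e k v).re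

theorem norm_e (k : ℕ) (v : ℝ) : ‖e k v‖ = 1 := by
  unfold e
  exact Complex.norm_exp_ofReal_mul_I _

theorem continuous_e (k : ℕ) : Continuous (e k) := by
  unfold e
  fun_prop

theorem e_add (k : ℕ) (u v : ℝ) : e k (u + v) = e k u * e k v := by
  unfold e
  rw [← Complex.exp_add]
  congr 1
  push_cast
  ring

theorem e_zero (v : ℝ) : e 0 v = 1 := by
  unfold e
  simp

theorem e_neg (k : ℕ) (v : ℝ) : e k (-v) = (starRingEnd ℂ) (e k v) := by
  unfold e
  rw [← Complex.exp_conj]
  congr 1
  simp

theorem continuous_tp (t : ℕ → ℂ) (n : ℕ) : Continuous (tp t n) := by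
  unfold tp
  refine continuous_finsetSum _ fun k _ => ?_
  exact Complex.continuous_re.comp (continuous_const.mul (continuous_e k))

/-- The inequalities satisfied by the moments `m k = ∫ f(s) exp (π i k (s - 1/2)) ds` (in `conv`,
which is used for kernels whose mean square is at most three times the square of the mean only, so
that it also holds for the `L^p` norms). -/
structure Good (M : ℝ) (m : ℕ → ℂ) : Prop where
  zero : m 0 = 1
  bd : ∀ k, ‖m k‖ ≤ 1
  arc : ∀ (n : ℕ) (t : ℕ → ℂ), (∀ u : ℝ, |u| ≤ 1 / 2 → 0 ≤ tp t n u) →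
    0 ≤ ∑ k ∈ range (n + 1), (t k * m k).re
  conv : ∀ (n : ℕ) (t : ℕ → ℂ), (∀ v : ℝ, 0 ≤ tp t n v) →
    ∑ k ∈ range n, ‖t (k + 1)‖ ^ 2 ≤ 4 * (t 0).re ^ 2 →
    ∑ k ∈ range (n + 1), (t k * (m k) ^ 2).re ≤ 2 * M * (t 0).re
  l2 : ∀ n : ℕ, 1 / 2 + ∑ k ∈ range n, ‖m (k + 1)‖ ^ 4 ≤ M

theorem tp_conj (t : ℕ → ℂ) (n : ℕ) (v : ℝ) :
    tp (fun k => (starRingEnd ℂ) (t k)) n v = tp t n (-v) := by
  unfold tp
  refine Finset.sum_congr rfl fun k _ => ?_
  rw [e_neg, ← Complex.conj_re (t k * _), map_mul, Complex.conj_conj]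

theorem Good.conj {M : ℝ} {m : ℕ → ℂ} (h : Good M m) :
    Good M (fun k => (starRingEnd ℂ) (m k)) where
  zero := by simp [h.zero]
  bd := fun k => by
    rw [Complex.norm_conj]
    exact h.bd k
  arc := fun n t ht => by
    have := h.arc n (fun k => (starRingEnd ℂ) (t k)) (fun u hu => by
      rw [tp_conj]
      exact ht _ (by rwa [abs_neg]))
    refine this.trans_eq (Finset.sum_congr rfl fun k _ => ?_)
    rw [← Complex.conj_re (_ * m k), map_mul, Complex.conj_conj]
  conv := fun n t ht hr => by
    have := h.conv n (fun k => (starRingEnd ℂ) (t k)) (fun u => by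
      rw [tp_conj]
      exact ht _) (by simpa only [Complex.norm_conj, Complex.conj_re] using hr)
    rw [Complex.conj_re] at this
    refine le_trans (le_of_eq (Finset.sum_congr rfl fun k _ => ?_)) this
    rw [← Complex.conj_re ((starRingEnd ℂ) (t k) * _), map_mul, Complex.conj_conj, map_pow]
  l2 := fun n => by
    simp only [Complex.norm_conj]
    exact h.l2 n

/-- the moments -/
noncomputable def mom (f : ℝ → ℝ) (k : ℕ) : ℂ := ∫ s, (f s : ℂ) * e k (s - 1 / 2)

section density

variable {f : ℝ → ℝ} (hf : IsUnitDensity f)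

include hf

theorem integrable_fe (k : ℕ) : Integrable (fun s => (f s : ℂ) * e k (s - 1 / 2)) := by
  have h1 : Integrable (fun s => (f s : ℂ)) := hf.1.ofReal
  refine h1.mul_bdd (c := 1) ?_ ?_
  · exact ((continuous_e k).comp (continuous_id.sub continuous_const)).aestronglyMeasurable
  · exact Filter.Eventually.of_forall fun s => (norm_e _ _).le

theorem mom_zero : mom f 0 = 1 := by
  unfold mom
  simp only [e_zero, mul_one]
  have h := integral_ofReal (𝕜 := ℂ) (μ := volume) (f := f)
  rw [hf.2.2.2] at h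
  simpa using h

theorem mom_bd (k : ℕ) : ‖mom f k‖ ≤ 1 := by
  unfold mom
  refine (norm_integral_le_integral_norm _).trans ?_
  simp only [norm_mul, norm_e, mul_one, Complex.norm_real]
  rw [← hf.2.2.2]
  exact le_of_eq (integral_congr_ae (Filter.Eventually.of_forall fun s =>
    Real.norm_of_nonneg (hf.2.1 s)))

theorem integral_f_tp (n : ℕ) (t : ℕ → ℂ) :
    ∫ s, f s * tp t n (s - 1 / 2) = ∑ k ∈ range (n + 1), (t k * mom f k).re := by
  have h1 : ∀ s, f s * tp t n (s - 1 / 2) =
      ∑ k ∈ range (n + 1), (t k * ((f s : ℂ) * e k (s - 1 / 2))).re := by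
    intro s
    unfold tp
    rw [Finset.mul_sum]
    refine Finset.sum_congr rfl fun k _ => ?_
    rw [show t k * ((f s : ℂ) * e k (s - 1 / 2)) = (f s : ℂ) * (t k * e k (s - 1 / 2)) by ring,
      Complex.re_ofReal_mul]
  simp_rw [h1]
  rw [integral_finsetSum]
  · refine Finset.sum_congr rfl fun k _ => ?_
    have h2 := integral_re ((integrable_fe hf k).const_mul (t k))
    rw [integral_const_mul] at h2
    exact h2
  · intro k _
    exact ((integrable_fe hf k).const_mul (t k)).re

theorem arc_ineq (n : ℕ) (t : ℕ → ℂ) (ht : ∀ u : ℝ, |u| ≤ 1 / 2 → 0 ≤ tp t n u) :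
    0 ≤ ∑ k ∈ range (n + 1), (t k * mom f k).re := by
  rw [← integral_f_tp hf]
  refine integral_nonneg fun s => ?_
  by_cases hs : s ∈ Icc (0 : ℝ) 1
  · refine mul_nonneg (hf.2.1 s) (ht _ ?_)
    rw [abs_le]
    constructor <;> linarith [hs.1, hs.2]
  · simp [hf.2.2.1 s hs]

theorem integrable_autoconv : Integrable (autoconv f) := by
  exact Integrable.integrable_convolution (ContinuousLinearMap.mul ℝ ℝ) hf.1 hf.1

theorem autoconv_nonneg (x : ℝ) : 0 ≤ autoconv f x :=
  integral_nonneg fun t => mul_nonneg (hf.2.1 _) (hf.2.1 _)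

theorem autoconv_eq_zero {x : ℝ} (hx : x ∉ Icc (0 : ℝ) 2) : autoconv f x = 0 := by
  unfold autoconv
  have h0 : ∀ t, f t * f (x - t) = 0 := by
    intro t
    by_cases ht : t ∈ Icc (0 : ℝ) 1
    · rw [hf.2.2.1 (x - t), mul_zero]
      intro h
      exact hx ⟨by linarith [ht.1, h.1], by linarith [ht.2, h.2]⟩
    · rw [hf.2.2.1 t ht, zero_mul]
  simp [h0]

theorem mom_conv (k : ℕ) :
    ∫ x, (autoconv f x : ℂ) * e k (x - 1) = (mom f k) ^ 2 := by
  have h := integral_convolution (ContinuousLinearMap.mul ℂ ℂ) (integrable_fe hf k)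
    (integrable_fe hf k) (μ := volume) (ν := volume)
  rw [ContinuousLinearMap.mul_apply'] at h
  unfold mom
  rw [sq, ← h]
  refine integral_congr_ae (Filter.Eventually.of_forall fun x => ?_)
  simp only [MeasureTheory.convolution, ContinuousLinearMap.mul_apply']
  unfold autoconv
  have h3 := integral_ofReal (𝕜 := ℂ) (μ := volume) (f := fun t => f t * f (x - t))
  simp only [Complex.coe_algebraMap] at h3
  rw [← h3, ← integral_mul_const]
  refine integral_congr_ae (Filter.Eventually.of_forall fun t => ?_)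
  simp only
  rw [show x - 1 = (t - 1 / 2) + (x - t - 1 / 2) by ring, e_add]
  push_cast
  ring

theorem integrable_ge (k : ℕ) : Integrable (fun x => (autoconv f x : ℂ) * e k (x - 1)) := by
  have h1 : Integrable (fun s => (autoconv f s : ℂ)) := (integrable_autoconv hf).ofReal
  refine h1.mul_bdd (c := 1) ?_ ?_
  · exact ((continuous_e k).comp (continuous_id.sub continuous_const)).aestronglyMeasurable
  · exact Filter.Eventually.of_forall fun s => (norm_e _ _).le

theorem integral_g_tp (n : ℕ) (t : ℕ → ℂ) :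
    ∫ x, autoconv f x * tp t n (x - 1) = ∑ k ∈ range (n + 1), (t k * (mom f k) ^ 2).re := by
  have h1 : ∀ s, autoconv f s * tp t n (s - 1) =
      ∑ k ∈ range (n + 1), (t k * ((autoconv f s : ℂ) * e k (s - 1))).re := by
    intro s
    unfold tp
    rw [Finset.mul_sum]
    refine Finset.sum_congr rfl fun k _ => ?_
    rw [show t k * ((autoconv f s : ℂ) * e k (s - 1)) =
      (autoconv f s : ℂ) * (t k * e k (s - 1)) by ring, Complex.re_ofReal_mul]
  simp_rw [h1]
  rw [integral_finsetSum]
  · refine Finset.sum_congr rfl fun k _ => ?_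
    have h2 := integral_re ((integrable_ge hf k).const_mul (t k))
    rw [integral_const_mul, mom_conv hf] at h2
    exact h2
  · intro k _
    exact ((integrable_ge hf k).const_mul (t k)).re

theorem integrable_g_tp (n : ℕ) (t : ℕ → ℂ) :
    Integrable (fun x => autoconv f x * tp t n (x - 1)) := by
  have h1 : ∀ s, autoconv f s * tp t n (s - 1) =
      ∑ k ∈ range (n + 1), (t k * ((autoconv f s : ℂ) * e k (s - 1))).re := by
    intro s
    unfold tp
    rw [Finset.mul_sum]
    refine Finset.sum_congr rfl fun k _ => ?_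
    rw [show t k * ((autoconv f s : ℂ) * e k (s - 1)) =
      (autoconv f s : ℂ) * (t k * e k (s - 1)) by ring, Complex.re_ofReal_mul]
  simp_rw [h1]
  exact integrable_finsetSum _ fun k _ => ((integrable_ge hf k).const_mul (t k)).re

end density

theorem int_e {k : ℕ} (hk : k ≠ 0) : ∫ x in (0 : ℝ)..2, e k (x - 1) = 0 := by
  have hc : ((π * k : ℝ) : ℂ) * I ≠ 0 := by
    refine mul_ne_zero ?_ I_ne_zero
    rw [Complex.ofReal_ne_zero]
    have : (k : ℝ) ≠ 0 := by exact_mod_cast hk
    exact mul_ne_zero Real.pi_ne_zero this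
  have h1 : ∀ x : ℝ, e k (x - 1) =
      Complex.exp (-(((π * k : ℝ) : ℂ) * I)) * Complex.exp (((π * k : ℝ) : ℂ) * I * x) := by
    intro x
    unfold e
    rw [← Complex.exp_add]
    congr 1
    push_cast
    ring
  simp_rw [h1]
  rw [intervalIntegral.integral_const_mul, integral_exp_mul_complex hc]
  have h2 : Complex.exp (((π * k : ℝ) : ℂ) * I * ((2 : ℝ) : ℂ)) = 1 := by
    rw [Complex.exp_eq_one_iff]
    refine ⟨k, ?_⟩
    push_cast
    ring
  rw [h2]
  simp

theorem int_re_e (c : ℂ) (k : ℕ) :
    ∫ x in (0 : ℝ)..2, (c * e k (x - 1)).re = if k = 0 then 2 * c.re else 0 := by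
  have hcont : Continuous fun x : ℝ => c * e k (x - 1) :=
    continuous_const.mul ((continuous_e k).comp (continuous_id.sub continuous_const))
  split_ifs with hk
  · subst hk
    simp only [e_zero, mul_one]
    simp
  · have h := intervalIntegral.intervalIntegral_re (𝕜 := ℂ) (μ := volume) (a := 0) (b := 2)
      (hcont.intervalIntegrable 0 2)
    refine h.trans ?_
    rw [intervalIntegral.integral_const_mul, int_e hk]
    simp

/-- product of two real exponential terms -/
theorem re_mul_re (a b : ℂ) {k l : ℕ} (h : l ≤ k) (v : ℝ) :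
    (a * e k v).re * (b * e l v).re =
      (1 / 2) * ((a * b) * e (k + l) v).re + (1 / 2) * ((a * (starRingEnd ℂ) b) * e (k - l) v).re := by
  have h1 : e (k + l) v = e k v * e l v := by
    unfold e
    rw [← Complex.exp_add]
    congr 1
    push_cast
    ring
  have h2 : e (k - l) v = e k v * (starRingEnd ℂ) (e l v) := by
    rw [← e_neg]
    unfold e
    rw [← Complex.exp_add]
    congr 1
    push_cast [h]
    ring
  rw [h1, h2, show a * b * (e k v * e l v) = (a * e k v) * (b * e l v) by ring,
    show a * (starRingEnd ℂ) b * (e k v * (starRingEnd ℂ) (e l v)) =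
      (a * e k v) * (starRingEnd ℂ) (b * e l v) by rw [map_mul]; ring]
  simp only [Complex.mul_re, Complex.conj_re, Complex.conj_im]
  ring

theorem cont_re_e (c : ℂ) (k : ℕ) : Continuous fun x : ℝ => (c * e k (x - 1)).re :=
  Complex.continuous_re.comp
    (continuous_const.mul ((continuous_e k).comp (continuous_id.sub continuous_const)))

theorem int_re_mul_re (a b : ℂ) (k l : ℕ) :
    ∫ x in (0 : ℝ)..2, (a * e k (x - 1)).re * (b * e l (x - 1)).re =
      if k = l then (if k = 0 then 2 * a.re * b.re else (a * (starRingEnd ℂ) b).re) else 0 := by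
  wlog h : l ≤ k generalizing a b k l
  · have := this b a l k (by omega)
    simp_rw [mul_comm (a * e k _).re]
    rw [this]
    have hkl : ¬ l = k := by omega
    rw [if_neg hkl, if_neg (Ne.symm hkl)]
  simp_rw [re_mul_re a b h]
  rw [intervalIntegral.integral_add, intervalIntegral.integral_const_mul,
    intervalIntegral.integral_const_mul, int_re_e, int_re_e]
  · rcases eq_or_ne k l with hkl | hkl
    · subst hkl
      rw [if_pos rfl, Nat.sub_self, if_pos rfl]
      rcases eq_or_ne k 0 with hk | hk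
      · subst hk
        simp only [add_zero, if_true, Complex.mul_re, Complex.conj_re, Complex.conj_im]
        ring
      · rw [if_neg (by omega), if_neg hk]
        ring
    · rw [if_neg (by omega), if_neg (by omega), if_neg hkl]
      ring
  · exact ((cont_re_e _ _).const_mul _).intervalIntegrable _ _
  · exact ((cont_re_e _ _).const_mul _).intervalIntegrable _ _

theorem int_tp (t : ℕ → ℂ) (n : ℕ) : ∫ x in (0 : ℝ)..2, tp t n (x - 1) = 2 * (t 0).re := by
  unfold tp
  rw [intervalIntegral.integral_finsetSum]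
  · simp_rw [int_re_e]
    rw [Finset.sum_ite_eq' (range (n + 1)) 0]
    simp
  · intro k _
    exact (cont_re_e _ _).intervalIntegrable _ _

theorem int_tp_sq (t : ℕ → ℂ) (n : ℕ) : ∫ x in (0 : ℝ)..2, (tp t n (x - 1)) ^ 2 =
    2 * (t 0).re ^ 2 + ∑ k ∈ range n, ‖t (k + 1)‖ ^ 2 := by
  unfold tp
  simp_rw [sq (∑ k ∈ range (n + 1), _), Finset.sum_mul_sum]
  rw [intervalIntegral.integral_finsetSum]
  · have h1 : ∀ k ∈ range (n + 1), ∫ x in (0 : ℝ)..2,
        ∑ l ∈ range (n + 1), (t k * e k (x - 1)).re * (t l * e l (x - 1)).re =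
        if k = 0 then 2 * (t k).re * (t k).re else (t k * (starRingEnd ℂ) (t k)).re := by
      intro k hk
      rw [intervalIntegral.integral_finsetSum]
      · simp_rw [int_re_mul_re]
        rw [Finset.sum_ite_eq (range (n + 1)) k]
        rw [if_pos hk]
      · intro l _
        exact ((cont_re_e _ _).mul (cont_re_e _ _)).intervalIntegrable _ _
    rw [Finset.sum_congr rfl h1, Finset.sum_range_succ']
    rw [if_pos rfl, add_comm]
    congr 1
    · ring
    · refine Finset.sum_congr rfl fun k _ => ?_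
      rw [if_neg (by omega), Complex.mul_conj, Complex.ofReal_re, Complex.normSq_eq_norm_sq]
  · intro k _
    refine Continuous.intervalIntegrable ?_ _ _
    exact continuous_finsetSum _ fun l _ => (cont_re_e _ _).mul (cont_re_e _ _)

theorem cont_tp_shift (t : ℕ → ℂ) (n : ℕ) : Continuous fun x : ℝ => tp t n (x - 1) :=
  (continuous_tp t n).comp (continuous_id.sub continuous_const)

section density2

variable {f : ℝ → ℝ} (hf : IsUnitDensity f) {M : ℝ} (hM : ∀ᵐ x, autoconv f x ≤ M)

include hf hM

theorem conv_ineq (n : ℕ) (t : ℕ → ℂ) (ht : ∀ v : ℝ, 0 ≤ tp t n v) :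
    ∑ k ∈ range (n + 1), (t k * (mom f k) ^ 2).re ≤ 2 * M * (t 0).re := by
  rw [← integral_g_tp hf]
  have h1 : ∫ x, autoconv f x * tp t n (x - 1) =
      ∫ x in Icc (0 : ℝ) 2, autoconv f x * tp t n (x - 1) := by
    symm
    apply setIntegral_eq_integral_of_forall_compl_eq_zero
    intro x hx
    rw [autoconv_eq_zero hf hx, zero_mul]
  have h2 : M * (2 * (t 0).re) = ∫ x in Icc (0 : ℝ) 2, M * tp t n (x - 1) := by
    rw [integral_const_mul, integral_Icc_eq_integral_Ioc,
      ← intervalIntegral.integral_of_le (by norm_num), int_tp]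
  rw [h1, show 2 * M * (t 0).re = M * (2 * (t 0).re) by ring, h2]
  refine setIntegral_mono_ae ((integrable_g_tp hf n t).integrableOn) ?_ ?_
  · exact ((cont_tp_shift t n).const_mul M).continuousOn.integrableOn_compact isCompact_Icc
  · filter_upwards [hM] with x hx
    exact mul_le_mul_of_nonneg_right hx (ht _)

theorem l2_ineq (n : ℕ) : 1 / 2 + ∑ k ∈ range n, ‖mom f (k + 1)‖ ^ 4 ≤ M := by
  set t : ℕ → ℂ := fun k => if k = 0 then 1 / 2 else ((starRingEnd ℂ) (mom f k)) ^ 2 with ht
  set S := ∑ k ∈ range n, ‖mom f (k + 1)‖ ^ 4 with hS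
  have e1 : ∑ k ∈ range (n + 1), (t k * (mom f k) ^ 2).re = 1 / 2 + S := by
    rw [Finset.sum_range_succ', add_comm]
    congr 1
    · simp only [ht, if_true, mom_zero hf]
      norm_num
    · refine Finset.sum_congr rfl fun k _ => ?_
      simp only [ht]
      rw [if_neg (by omega), ← mul_pow, mul_comm, Complex.mul_conj, Complex.normSq_eq_norm_sq]
      norm_cast
      ring
  have e2 : ∫ x in (0 : ℝ)..2, (tp t n (x - 1)) ^ 2 = 1 / 2 + S := by
    rw [int_tp_sq]
    congr 1
    · simp only [ht, if_true]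
      norm_num
    · refine Finset.sum_congr rfl fun k _ => ?_
      simp only [ht]
      rw [if_neg (by omega), norm_pow, Complex.norm_conj]
      ring
  have hint : Integrable (autoconv f) := integrable_autoconv hf
  have hI1 : IntegrableOn (fun x => M * autoconv f x) (Icc (0 : ℝ) 2) :=
    (hint.const_mul M).integrableOn
  have hI2 : IntegrableOn (fun x => 2 * (autoconv f x * tp t n (x - 1))) (Icc (0 : ℝ) 2) :=
    ((integrable_g_tp hf n t).const_mul 2).integrableOn
  have hI3 : IntegrableOn (fun x => (tp t n (x - 1)) ^ 2) (Icc (0 : ℝ) 2) :=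
    ((cont_tp_shift t n).pow 2).continuousOn.integrableOn_compact isCompact_Icc
  have h0 : 0 ≤ ∫ x in Icc (0 : ℝ) 2, (M * autoconv f x - 2 * (autoconv f x * tp t n (x - 1)) +
      (tp t n (x - 1)) ^ 2) := by
    apply integral_nonneg_of_ae
    filter_upwards [ae_restrict_of_ae hM] with x hx
    have hg := autoconv_nonneg hf x
    simp only [Pi.zero_apply]
    nlinarith [sq_nonneg (autoconv f x - tp t n (x - 1)), mul_le_mul_of_nonneg_right hx hg]
  have h5 := integral_add (hI1.sub hI2) hI3
  have h6 := integral_sub hI1 hI2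
  simp only [Pi.sub_apply] at h5
  rw [h5, h6, integral_const_mul, integral_const_mul] at h0
  have h1 : ∫ x in Icc (0 : ℝ) 2, autoconv f x * tp t n (x - 1) = 1 / 2 + S := by
    rw [← e1, ← integral_g_tp hf]
    apply setIntegral_eq_integral_of_forall_compl_eq_zero
    intro x hx
    rw [autoconv_eq_zero hf hx, zero_mul]
  have h2 : ∫ x in Icc (0 : ℝ) 2, autoconv f x = 1 := by
    have h3 : ∫ x in Icc (0 : ℝ) 2, autoconv f x = ∫ x, autoconv f x := by
      apply setIntegral_eq_integral_of_forall_compl_eq_zero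
      intro x hx
      exact autoconv_eq_zero hf hx
    rw [h3]
    have h4 := integral_convolution (ContinuousLinearMap.mul ℝ ℝ) hf.1 hf.1
      (μ := volume) (ν := volume)
    rw [ContinuousLinearMap.mul_apply', hf.2.2.2] at h4
    rw [mul_one] at h4
    exact h4
  have h3 : ∫ x in Icc (0 : ℝ) 2, (tp t n (x - 1)) ^ 2 = 1 / 2 + S := by
    rw [integral_Icc_eq_integral_Ioc, ← intervalIntegral.integral_of_le (by norm_num), e2]
  rw [h1, h2, h3] at h0
  linarith

/-- the moments of a unit-interval density with `f * f ≤ M` almost everywhere -/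
theorem good : Good M (mom f) where
  zero := mom_zero hf
  bd := mom_bd hf
  arc := arc_ineq hf
  conv := fun n t ht _ => conv_ineq hf hM n t ht
  l2 := l2_ineq hf hM

end density2

/-- If every `M` that admits a good moment sequence is at least `L`, then `c(∞) ≥ L`. -/
theorem le_c_top {L : ℝ} (h : ∀ (M : ℝ) (m : ℕ → ℂ), Good M m → L ≤ M) :
    ENNReal.ofReal L ≤ c ∞ := by
  refine le_iInf fun ⟨f, hf⟩ => ?_
  simp only
  by_cases htop : eLpNorm (autoconv f) ∞ volume = ∞
  · rw [htop]
    exact le_top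
  · have hM : ∀ᵐ x, autoconv f x ≤ (eLpNorm (autoconv f) ∞ volume).toReal := by
      rw [eLpNorm_exponent_top]
      rw [eLpNorm_exponent_top] at htop
      filter_upwards [enorm_ae_le_eLpNormEssSup (autoconv f) volume] with x hx
      have h1 : ENNReal.ofReal (autoconv f x) ≤ eLpNormEssSup (autoconv f) volume := by
        refine le_trans ?_ hx
        rw [Real.enorm_eq_ofReal (autoconv_nonneg hf x)]
      exact (ENNReal.ofReal_le_iff_le_toReal htop).1 h1
    have h2 := h _ _ (good hf hM)
    exact (ENNReal.ofReal_le_iff_le_toReal htop).2 h2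

end Run7.h583
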