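import Pool.Agent.Run7.h583.C1aDefs
import Pool.Agent.Run7.h583.Core

/-! Reduction of the bound for `C_{1a}` to densities on the unit interval. -/

set_option autoImplicit false

open MeasureTheory Set Complex Finset
open scoped ENNReal

namespace Run7.h583

theorem integrable_mul_shift {f : ℝ → ℝ} (hf : MemLp f 2 volume) (t : ℝ) :
    Integrable fun x => f x * f (t - x) := by
  have h1 : MemLp (fun x => f (t - x)) 2 volume :=
    hf.comp_measurePreserving (Measure.measurePreserving_sub_left volume t)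
  exact hf.integrable_mul h1

theorem bddAbove_selfConv {f : ℝ → ℝ} (hf : MemLp f 2 volume) (s : Set ℝ) :
    BddAbove (selfConv f '' s) := by
  refine ⟨∫ x, f x ^ 2, ?_⟩
  rintro _ ⟨t, _, rfl⟩
  have h1 : MemLp (fun x => f (t - x)) 2 volume :=
    hf.comp_measurePreserving (Measure.measurePreserving_sub_left volume t)
  have h2 := hf.integrable_sq
  have h3 := h1.integrable_sq
  have h4 : ∫ x, f (t - x) ^ 2 = ∫ x, f x ^ 2 :=
    integral_sub_left_eq_self (fun x => f x ^ 2) volume t
  have h5 : selfConv f t ≤ ∫ x, ((1 / 2) * f x ^ 2 + (1 / 2) * f (t - x) ^ 2) := by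
    refine integral_mono (integrable_mul_shift hf t) ((h2.const_mul _).add (h3.const_mul _))
      fun x => ?_
    show f x * f (t - x) ≤ (1 / 2) * f x ^ 2 + (1 / 2) * f (t - x) ^ 2
    nlinarith [sq_nonneg (f x - f (t - x))]
  rw [integral_add (h2.const_mul _) (h3.const_mul _), integral_const_mul, integral_const_mul,
    h4] at h5
  linarith

theorem le_selfConv {L : ℝ} (h : ∀ (M : ℝ) (m : ℕ → ℂ), Good M m → L ≤ M) {f : ℝ → ℝ}
    (hf0 : ∀ x, 0 ≤ f x) (hf : MemLp f 2 volume) :
    2 * L * (∫ x in Icc (-1 / 4 : ℝ) (1 / 4), f x) ^ 2 ≤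
      sSup (selfConv f '' Icc (-1 / 2 : ℝ) (1 / 2)) := by
  set I := ∫ x in Icc (-1 / 4 : ℝ) (1 / 4), f x with hI
  set S := sSup (selfConv f '' Icc (-1 / 2 : ℝ) (1 / 2)) with hS
  have hsc0 : ∀ t, 0 ≤ selfConv f t := fun t =>
    integral_nonneg fun x => mul_nonneg (hf0 _) (hf0 _)
  have hS0 : 0 ≤ S := Real.sSup_nonneg (by
    rintro _ ⟨t, _, rfl⟩
    exact hsc0 t)
  have hI0 : 0 ≤ I := setIntegral_nonneg measurableSet_Icc fun x _ => hf0 x
  rcases hI0.lt_or_eq with hI1 | hI1
  swap
  · rw [← hI1]
    simpa using hS0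
  set f1 : ℝ → ℝ := (Icc (-1 / 4 : ℝ) (1 / 4)).indicator f with hf1
  have hf10 : ∀ x, 0 ≤ f1 x := fun x => indicator_nonneg (fun y _ => hf0 y) x
  have hf1le : ∀ x, f1 x ≤ f x := fun x => indicator_le_self' (fun y _ => hf0 y) x
  have hint1 : Integrable f1 := by
    rw [hf1, integrable_indicator_iff measurableSet_Icc]
    have h1 : MemLp f 2 (volume.restrict (Icc (-1 / 4 : ℝ) (1 / 4))) := hf.restrict _
    have h2 : IsFiniteMeasure (volume.restrict (Icc (-1 / 4 : ℝ) (1 / 4))) := by
      refine ⟨?_⟩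
      rw [Measure.restrict_apply_univ, Real.volume_Icc]
      exact ENNReal.ofReal_lt_top
    exact h1.integrable (by norm_num)
  have hint1I : ∫ x, f1 x = I := by
    rw [hf1, integral_indicator measurableSet_Icc]
  have hmem1 : MemLp f1 2 volume := hf.indicator measurableSet_Icc
  -- the self-convolution of `f1` is at most `S`
  have hle : ∀ t, selfConv f1 t ≤ S := by
    intro t
    by_cases ht : t ∈ Icc (-1 / 2 : ℝ) (1 / 2)
    · have h1 : selfConv f1 t ≤ selfConv f t := by
        refine integral_mono (integrable_mul_shift hmem1 t) (integrable_mul_shift hf t) fun x => ?_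
        exact mul_le_mul (hf1le x) (hf1le _) (hf10 _) (hf0 x)
      exact h1.trans (le_csSup (bddAbove_selfConv hf _) ⟨t, ht, rfl⟩)
    · have h1 : selfConv f1 t = 0 := by
        unfold selfConv
        have : ∀ x, f1 x * f1 (t - x) = 0 := by
          intro x
          by_cases hx : x ∈ Icc (-1 / 4 : ℝ) (1 / 4)
          · have hx2 : t - x ∉ Icc (-1 / 4 : ℝ) (1 / 4) := by
              intro h2
              apply ht
              rw [Set.mem_Icc] at hx h2 ⊢
              constructor <;> linarith [hx.1, hx.2, h2.1, h2.2]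
            rw [hf1, indicator_of_notMem hx2, mul_zero]
          · rw [hf1, indicator_of_notMem hx, zero_mul]
        simp only [this, integral_zero]
      rw [h1]
      exact hS0
  -- the density on the unit interval
  set F : ℝ → ℝ := fun s => (1 / (2 * I)) * f1 (s / 2 - 1 / 4) with hF
  have hFint : ∀ g : ℝ → ℝ, ∫ s, g (s / 2 - 1 / 4) = 2 * ∫ y, g y := by
    intro g
    have h1 := Measure.integral_comp_div (fun y => g (y - 1 / 4)) (2 : ℝ)
    rw [h1, integral_sub_right_eq_self g (1 / 4 : ℝ)]
    norm_num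
  have hFd : IsUnitDensity F := by
    refine ⟨?_, fun s => mul_nonneg (by positivity) (hf10 _), fun s hs => ?_, ?_⟩
    · refine Integrable.const_mul ?_ _
      have h1 : Integrable fun y => f1 (y - 1 / 4) := hint1.comp_sub_right (1 / 4 : ℝ)
      exact h1.comp_div (by norm_num : (2 : ℝ) ≠ 0)
    · have hs2 : s / 2 - 1 / 4 ∉ Icc (-1 / 4 : ℝ) (1 / 4) := by
        intro h2
        apply hs
        rw [Set.mem_Icc] at h2 ⊢
        constructor <;> linarith [h2.1, h2.2]
      rw [hF]
      simp only
      rw [hf1, indicator_of_notMem hs2, mul_zero]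
    · rw [hF]
      simp only
      rw [integral_const_mul, hFint f1, hint1I]
      field_simp
  have hconv : ∀ x, autoconv F x = 1 / (2 * I ^ 2) * selfConv f1 ((x - 1) / 2) := by
    intro x
    unfold autoconv selfConv
    have h1 : ∀ s, F s * F (x - s) = (1 / (4 * I ^ 2)) *
        (fun y => f1 y * f1 ((x - 1) / 2 - y)) (s / 2 - 1 / 4) := by
      intro s
      rw [hF]
      simp only
      rw [show (x - s) / 2 - 1 / 4 = (x - 1) / 2 - (s / 2 - 1 / 4) by ring]
      field_simp
      ring
    simp only [h1]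
    rw [integral_const_mul, hFint (fun y => f1 y * f1 ((x - 1) / 2 - y))]
    field_simp
    ring
  have hgood : Good (S / (2 * I ^ 2)) (mom F) := by
    refine good hFd (Filter.Eventually.of_forall fun x => ?_)
    rw [hconv, one_div, inv_mul_eq_div]
    exact div_le_div_of_nonneg_right (hle _) (by positivity)
  have h1 := h _ _ hgood
  rw [le_div_iff₀ (by positivity)] at h1
  linarith

theorem le_C1a {L : ℝ} (h : ∀ (M : ℝ) (m : ℕ → ℂ), Good M m → L ≤ M) : 2 * L ≤ C1a := by
  refine le_csSup ⟨2, ?_⟩ fun f hf0 hf => le_selfConv h hf0 hf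
  intro C hC
  set f0 : ℝ → ℝ := (Icc (-1 / 4 : ℝ) (1 / 4)).indicator (fun _ => 1) with hf0
  have hnn : ∀ x, 0 ≤ f0 x := fun x => indicator_nonneg (fun _ _ => zero_le_one) x
  have hle1 : ∀ x, f0 x ≤ 1 := fun x => indicator_le_self' (fun _ _ => zero_le_one) x
  have hmem : MemLp f0 2 volume := by
    refine memLp_indicator_const 2 measurableSet_Icc 1 (Or.inr ?_)
    rw [Real.volume_Icc]
    exact ENNReal.ofReal_ne_top
  have hint : Integrable f0 := by
    rw [hf0, integrable_indicator_iff measurableSet_Icc]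
    refine integrableOn_const ?_
    rw [Real.volume_Icc]
    exact ENNReal.ofReal_ne_top
  have hI : ∫ x in Icc (-1 / 4 : ℝ) (1 / 4), f0 x = 1 / 2 := by
    rw [hf0, setIntegral_indicator measurableSet_Icc, inter_self, setIntegral_const]
    simp only [Measure.real, Real.volume_Icc, smul_eq_mul, mul_one]
    rw [ENNReal.toReal_ofReal (by norm_num)]
    norm_num
  have hI2 : ∫ x, f0 x = 1 / 2 := by
    rw [← hI, ← integral_indicator measurableSet_Icc, hf0, indicator_indicator, inter_self]
  have h1 := hC f0 hnn hmem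
  rw [hI] at h1
  have h2 : sSup (selfConv f0 '' Icc (-1 / 2 : ℝ) (1 / 2)) ≤ 1 / 2 := by
    refine csSup_le ⟨_, 0, by constructor <;> norm_num, rfl⟩ ?_
    rintro _ ⟨t, _, rfl⟩
    rw [← hI2]
    refine integral_mono (integrable_mul_shift hmem t) hint fun x => ?_
    have := mul_le_mul_of_nonneg_left (hle1 (t - x)) (hnn x)
    simpa using this
  linarith

end Run7.h583
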