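import Mathlib

/-! The autocorrelation constant `C_{1a}`. -/

set_option autoImplicit false

open MeasureTheory Set

namespace Run7.h583

/-- `(f * f)(t) = ∫ f(x) f(t - x) dx` -/
noncomputable def selfConv (f : ℝ → ℝ) (t : ℝ) : ℝ := ∫ x, f x * f (t - x)

/-- The constant `C_{1a}`: the supremum of the real numbers `C` such that
`C (∫_{[-1/4, 1/4]} f)² ≤ sup_{|t| ≤ 1/2} (f * f)(t)` for every nonnegative square-integrable `f`. -/
noncomputable def C1a : ℝ :=
  sSup {C : ℝ | ∀ f : ℝ → ℝ, (∀ x, 0 ≤ f x) → MemLp f 2 volume →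
    C * (∫ x in Icc (-1 / 4 : ℝ) (1 / 4), f x) ^ 2 ≤
      sSup (selfConv f '' Icc (-1 / 2 : ℝ) (1 / 2))}

end Run7.h583
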