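/-! The checker for leaf certificates (definitions only, written for fast kernel evaluation). -/

set_option autoImplicit false

namespace Run7.h583

/-- sum of `f 0, ..., f (n - 1)` -/
def sumr (f : Nat → Nat) (n : Nat) : Nat :=
  Nat.rec (motive := fun _ => Nat) 0 (fun k ih => Nat.add ih (f k)) n

/-- conjunction of `f 0, ..., f (n - 1)` -/
def allr (f : Nat → Bool) (n : Nat) : Bool :=
  Nat.rec (motive := fun _ => Bool) true (fun k ih => and ih (f k)) n

/-- digit `j` of `X` in base `W` -/
def dg (W X j : Nat) : Nat := Nat.mod (Nat.div X (Nat.pow W j)) W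

/-- `2 ^ 64` -/
def BB : Nat := 18446744073709551616

/-- `2 ^ 63` -/
def HB : Nat := 9223372036854775808

/-- `1 + B + ... + B ^ (n - 1)` -/
def rep (n : Nat) : Nat := Nat.div (Nat.pred (Nat.pow BB n)) (Nat.pred BB)

/-- value at `B` of the polynomial with coefficients the digits of `X` in base `W` -/
def evf (W X n : Nat) : Nat := sumr (fun j => Nat.mul (dg W X j) (Nat.pow BB j)) n

/-- value at `B` of the reversed polynomial -/
def evb (W X n : Nat) : Nat := sumr (fun j => Nat.mul (dg W X j) (Nat.pow BB (Nat.sub (Nat.pred n) j))) n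

/-- signed value: digits have the offset `H` -/
def svf (W H X n : Nat) : Int := Int.subNatNat (evf W X n) (Nat.mul H (rep n))

/-- signed value of the reversed polynomial -/
def svb (W H X n : Nat) : Int := Int.subNatNat (evb W X n) (Nat.mul H (rep n))

/-- value at `B` of the autocorrelation polynomial of `r + i s` -/
def cor (W H r s n : Nat) : Int :=
  Int.add (Int.mul (Int.add (svf W H r n) (svf W H s n)) (svb W H r n))
    (Int.mul (Int.sub (svf W H s n) (svf W H r n)) (svb W H s n))

/-- digits with offset of `Z` -/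
def off (n : Nat) (Z : Int) : Nat := Int.toNat (Int.add Z (Int.ofNat (Nat.mul HB (rep n))))

/-- nonnegativity test -/
def nn (x : Int) : Bool := match x with
  | Int.ofNat _ => true
  | Int.negSucc _ => false

/-- signed digit of the offset number `Y` -/
def sg (Y j : Nat) : Int := Int.subNatNat (dg BB Y j) HB

/-- signed number with offset `H` -/
def sd (W H X j : Nat) : Int := Int.subNatNat (dg W X j) H

/-- the test for one frequency. All numbers are scaled: `κ` and `ρ, lam` by `2 ^ 28`, `t, nu` by
`2 ^ 42`, `c` by `2 ^ 56`, the box endpoints `a, b` by `2 ^ 14`. -/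
def stepOk (kr ki tx ty rho c lam nu a b : Int) : Bool :=
  let Qxx := Int.add (Int.add rho rho) kr
  let Qyy := Int.add (Int.sub (Int.add rho rho) kr) lam
  let det := Int.sub (Int.mul Qxx Qyy) (Int.mul ki ki)
  let ly := Int.add (Int.add ty (Int.mul lam (Int.add a b))) nu
  let gam := Int.sub (Int.sub (Int.add (Int.mul (Int.mul lam a) b)
    (match nn nu with | true => Int.mul nu a | false => Int.mul nu b)) c) (Int.mul rho rho)
  and (and (nn (Int.sub Qxx (Int.ofNat 1))) (nn (Int.sub det (Int.ofNat 1))))
    (nn (Int.sub (Int.mul (Int.mul (Int.ofNat 4) gam) det)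
      (Int.add (Int.mul (Int.mul Qyy tx) tx)
        (Int.mul (Int.add (Int.mul (Int.add ki ki) tx) (Int.mul Qxx ly)) ly))))

/-- packed data of a leaf -/
structure Dat where
  D : Nat
  qr : Nat
  qi : Nat
  ar : Nat
  ai : Nat
  br : Nat
  bi : Nat
  rho : Nat
  c : Nat
  m : Nat
  lam : Nat
  nu : Nat
  l1 : Int
  l2 : Int
  ct : Nat

/-- `2 ^ 31` times the tail coefficients (cosine part), offset `2 ^ 32`, base `2 ^ 33` -/
def TX : Nat := 0x8049f73ebfdb0460dfeb987c100a33c20805aafa03fd2a8301fe69ba0100cb23008072d1003fc697801fdf32001010670008097f0003fb408001fd3500010165800080d680003f94c0001fbe0000102100000815000003f5800001f900000103800000828000003ec000001f000000108000000880000003c000000180000001c0000000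
/-- `2 ^ 31` times the tail coefficients (sine part), offset `2 ^ 32`, base `2 ^ 33` -/
def TY : Nat := 0x7fb608c1bfdb0460e0146784100a33c207fa550603fd2a83020196460100cb23007f8d2f003fc697802020ce001010670007f6810003fb40800202cb0001016580007f2980003f94c000204200001021000007eb000003f580000207000001038000007d8000003ec0000021000000108000000780000003c000000280000000c0000000

/-- digits of the kernel `K` -/
def Dat.YK (d : Dat) : Nat :=
  off (Nat.succ (Nat.mul 2 d.D)) (cor 1048576 524288 d.qr d.qi (Nat.succ d.D))

/-- digits of the sum of squares -/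
def Dat.YT (d : Dat) : Nat :=
  off 65 (Int.add (Int.mul (Int.ofNat 2) (cor 16777216 8388608 d.ar d.ai 33))
    (Int.mul (Int.ofNat (Nat.succ (Nat.mul BB BB))) (cor 16777216 8388608 d.br d.bi 32)))

/-- real part of coefficient `k` (`k ≥ 1`) -/
def cre (Y n k : Nat) : Int := Int.add (sg Y (Nat.add n k)) (sg Y (Nat.sub n k))
/-- imaginary part of coefficient `k` (`k ≥ 1`) -/
def cim (Y n k : Nat) : Int := Int.sub (sg Y (Nat.add n k)) (sg Y (Nat.sub n k))

/-- test for the frequency `k + 1` -/
def Dat.step (d : Dat) (YK YT : Nat) (lo hi : Nat → Int) (k : Nat) : Bool :=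
  let kr := match Nat.ble (Nat.succ k) d.D with
    | true => cre YK d.D (Nat.succ k)
    | false => Int.ofNat 0
  let ki := match Nat.ble (Nat.succ k) d.D with
    | true => cim YK d.D (Nat.succ k)
    | false => Int.ofNat 0
  let tx := Int.add (cre YT 32 (Nat.succ k)) (Int.mul d.l1 (sd 8589934592 4294967296 TX k))
  let ty := Int.sub (Int.mul d.l2 (sd 8589934592 4294967296 TY k)) (cim YT 32 (Nat.succ k))
  let rho := Int.ofNat (Nat.mul (dg 65536 d.rho k) 16384)
  let c := Int.mul (sd 4294967296 2147483648 d.c k) (Int.ofNat 4294967296)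
  match Nat.ble (Nat.succ k) d.m with
  | true => stepOk kr ki tx ty rho c (Int.ofNat (Nat.mul (dg 65536 d.lam k) 262144))
      (Int.mul (sd 1048576 524288 d.nu k) (Int.ofNat 1073741824)) (lo k) (hi k)
  | false => stepOk kr ki tx ty rho c (Int.ofNat 0) (Int.ofNat 0) (Int.ofNat 0) (Int.ofNat 0)

/-- the final inequality `F ≥ L (2 K_0 + 1)` with `L = p / q` -/
def Dat.fin (d : Dat) (p q : Nat) (YK YT : Nat) : Bool :=
  let K0 := sg YK d.D
  let F := Int.add (Int.sub (Int.add (Int.sub (Int.add (Int.add
    (Int.mul K0 (Int.ofNat 268435456)) (Int.ofNat 36028797018963968))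
    (Int.mul (Int.subNatNat (sumr (fun k => dg 4294967296 d.c k) 32) 68719476736)
      (Int.ofNat 4294967296)))
    (Int.mul (sg YT 32) (Int.ofNat 16384)))
    (Int.mul d.l1 (Int.ofNat 35184372088832)))
    (Int.ofNat (Nat.mul d.ct 68719476736))) (Int.ofNat 0)
  and (nn K0) (nn (Int.sub (Int.mul (Int.ofNat q) F)
    (Int.mul (Int.ofNat (Nat.mul p 268435456))
      (Int.add (Int.add K0 K0) (Int.ofNat 268435456)))))

/-- the condition on the tail multiplier -/
def Dat.tail (d : Dat) : Bool :=
  let s := Int.toNat (Int.add (Int.mul d.l1 d.l1) (Int.mul d.l2 d.l2))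
  Nat.ble (Nat.mul (Nat.mul 1157625 (Nat.pow 35357670 4)) (Nat.mul s s))
    (Nat.mul (Nat.pow 2 124) (Nat.pow d.ct 3))

/-- the sum of the squares of the coefficients of the kernel is at most three times the square of
the middle one -/
def Dat.rat (d : Dat) (YK : Nat) : Bool :=
  let m := dg BB YK d.D
  Nat.ble (Nat.add (Nat.add (sumr (fun j => Nat.mul (dg BB YK j) (dg BB YK j))
      (Nat.succ (Nat.mul 2 d.D))) (Nat.mul (Nat.succ (Nat.mul 2 d.D)) (Nat.mul HB HB)))
      (Nat.mul (Nat.mul 6 HB) m))
    (Nat.add (Nat.add (Nat.mul 3 (Nat.mul m m)) (Nat.mul 3 (Nat.mul HB HB)))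
      (Nat.mul (Nat.mul 2 HB) (sumr (fun j => dg BB YK j) (Nat.succ (Nat.mul 2 d.D)))))

/-- the leaf test -/
def Dat.ok (d : Dat) (p q : Nat) (lo hi : Nat → Int) : Bool :=
  and (and (Nat.ble d.D 32) (and d.tail (Dat.rat d d.YK)))
    (and (Dat.fin d p q d.YK d.YT) (allr (Dat.step d d.YK d.YT lo hi) 32))

/-- change the value of `f` at `k` -/
def upd (f : Nat → Int) (k : Nat) (v : Int) : Nat → Int := fun j =>
  match Nat.beq j k with
  | true => v
  | false => f j

/-- a branch and bound tree -/
inductive Tree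
  | leaf (d : Dat)
  | node (k : Nat) (v : Int) (l r : Tree)

/-- the test for a tree -/
noncomputable def Tree.check (p q : Nat) (t : Tree) : (Nat → Int) → (Nat → Int) → Bool :=
  Tree.rec (motive := fun _ => (Nat → Int) → (Nat → Int) → Bool) (fun d lo hi => d.ok p q lo hi)
    (fun k v _ _ ihl ihr lo hi => and (ihl lo (upd hi k v)) (ihr (upd lo k v) hi)) t

/-- lower ends of the root box: `Im m 2 ≥ 0` -/
def lo0 : Nat → Int := fun k =>
  match Nat.beq k 1 with
  | true => Int.ofNat 0
  | false => Int.negSucc 16383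

/-- upper ends of the root box -/
def hi0 : Nat → Int := fun _ => Int.ofNat 16384

end Run7.h583
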