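import Mathlib

/-! Definitions for the autoconvolution problem on the unit interval. -/

set_option autoImplicit false

open MeasureTheory Set
open scoped ENNReal

namespace Run7.h583

/-- A unit-interval density: a Lebesgue integrable `f : ℝ → ℝ` with `f ≥ 0`, `f = 0` outside
`[0, 1]` and `∫ f = 1`. -/
def IsUnitDensity (f : ℝ → ℝ) : Prop :=
  Integrable f ∧ (∀ x, 0 ≤ f x) ∧ (∀ x, x ∉ Icc (0 : ℝ) 1 → f x = 0) ∧ ∫ x, f x = 1

/-- The autoconvolution `(f * f)(x) = ∫ f(t) f(x - t) dt`. -/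
noncomputable def autoconv (f : ℝ → ℝ) (x : ℝ) : ℝ := ∫ t, f t * f (x - t)

/-- `c(p)`: the infimum of `‖f * f‖_p` over the unit-interval densities. -/
noncomputable def c (p : ℝ≥0∞) : ℝ≥0∞ :=
  ⨅ f : {f : ℝ → ℝ // IsUnitDensity f}, eLpNorm (autoconv f.1) p volume

end Run7.h583
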