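import Pool.Agent.Run7.h583.Trig

/-! Correctness of the leaf test. -/

set_option autoImplicit false

open Finset Polynomial

namespace Run7.h583

theorem nn_iff (x : ℤ) : nn x = true ↔ 0 ≤ x := by
  cases x with
  | ofNat n => simp [nn]
  | negSucc n =>
    simp only [nn]
    constructor
    · intro h
      cases h
    · intro h
      have := Int.negSucc_lt_zero n
      omega

theorem stepOk_spec {kr ki tx ty rho c lam nu a b : ℤ}
    (h : stepOk kr ki tx ty rho c lam nu a b = true) :
    ∃ w : ℤ, (0 ≤ nu → w = nu * a) ∧ (¬ 0 ≤ nu → w = nu * b) ∧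
      0 ≤ rho + rho + kr - 1 ∧
      0 ≤ (rho + rho + kr) * (rho + rho - kr + lam) - ki * ki - 1 ∧
      0 ≤ 4 * (lam * a * b + w - c - rho * rho) *
          ((rho + rho + kr) * (rho + rho - kr + lam) - ki * ki) -
        ((rho + rho - kr + lam) * tx * tx + ((ki + ki) * tx +
          (rho + rho + kr) * (ty + lam * (a + b) + nu)) * (ty + lam * (a + b) + nu)) := by
  refine ⟨match nn nu with | true => nu * a | false => nu * b, ?_, ?_, ?_⟩
  · intro h0
    rw [(nn_iff nu).2 h0]
  · intro h0
    have : nn nu = false := by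
      rw [Bool.eq_false_iff]
      intro h1
      exact h0 ((nn_iff nu).1 h1)
    rw [this]
  · unfold stepOk at h
    simp only [Bool.and_eq_true, nn_iff] at h
    exact ⟨h.1.1, h.1.2, h.2⟩

theorem quad_nonneg {A B K tx ly g : ℝ} (hA : 0 < A) (hD : 0 < A * B - K * K)
    (h : B * tx * tx + ((K + K) * tx + A * ly) * ly ≤ 4 * g * (A * B - K * K)) (X Y : ℝ) :
    0 ≤ A * X ^ 2 + B * Y ^ 2 - 2 * K * X * Y - tx * X - ly * Y + g := by
  have key : 4 * A * (A * B - K * K) *
      (A * X ^ 2 + B * Y ^ 2 - 2 * K * X * Y - tx * X - ly * Y + g) =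
      (A * B - K * K) * (2 * A * X - 2 * K * Y - tx) ^ 2 +
      (2 * (A * B - K * K) * Y - (A * ly + K * tx)) ^ 2 +
      A * (4 * g * (A * B - K * K) - (B * tx * tx + ((K + K) * tx + A * ly) * ly)) := by
    ring
  have h1 : 0 < 4 * A * (A * B - K * K) := by positivity
  have h2 : 0 ≤ 4 * A * (A * B - K * K) *
      (A * X ^ 2 + B * Y ^ 2 - 2 * K * X * Y - tx * X - ly * Y + g) := by
    rw [key]
    have a1 := mul_nonneg hD.le (sq_nonneg (2 * A * X - 2 * K * Y - tx))
    have a2 := sq_nonneg (2 * (A * B - K * K) * Y - (A * ly + K * tx))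
    have a3 := mul_nonneg hA.le (sub_nonneg.2 h)
    linarith
  exact (mul_nonneg_iff_of_pos_left h1).1 h2

/-- the integer test implies the inequality for one frequency -/
theorem step_ineq {kr ki tx ty rho c lam nu a b : ℤ}
    (h : stepOk kr ki tx ty rho c lam nu a b = true) (hlam : 0 ≤ lam) {X Y : ℝ}
    (hbox : (lam = 0 ∧ nu = 0) ∨ ((a : ℝ) ≤ Y ∧ Y ≤ b)) :
    (c : ℝ) + tx * X + ty * Y ≤ kr * (X ^ 2 - Y ^ 2) - 2 * ki * X * Y + (X ^ 2 + Y ^ 2) ^ 2 := by
  obtain ⟨w, hw1, hw2, h1, h2, h3⟩ := stepOk_spec h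
  have h1' : (1 : ℝ) ≤ (rho : ℝ) + rho + kr := by
    have : (1 : ℤ) ≤ rho + rho + kr := by linarith
    exact_mod_cast this
  have h2' : (1 : ℝ) ≤ ((rho : ℝ) + rho + kr) * (rho + rho - kr + lam) - ki * ki := by
    have : (1 : ℤ) ≤ (rho + rho + kr) * (rho + rho - kr + lam) - ki * ki := by linarith
    exact_mod_cast this
  have h3' : ((rho : ℝ) + rho - kr + lam) * tx * tx + ((ki + ki) * tx +
          (rho + rho + kr) * (ty + lam * (a + b) + nu)) * (ty + lam * (a + b) + nu) ≤
      4 * (lam * a * b + w - c - rho * rho) *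
          ((rho + rho + kr) * (rho + rho - kr + lam) - ki * ki) := by
    have := sub_nonneg.1 h3
    exact_mod_cast this
  have hq := quad_nonneg (by linarith) (by linarith) h3' X Y
  have hlam' : (0 : ℝ) ≤ lam := by exact_mod_cast hlam
  have hb : (lam : ℝ) * ((Y - a) * (Y - b)) ≤ 0 ∧ (w : ℝ) - nu * Y ≤ 0 := by
    rcases hbox with ⟨hl, hn⟩ | ⟨ha, hb⟩
    · subst hl hn
      have := hw1 le_rfl
      subst this
      simp
    · constructor
      · exact mul_nonpos_of_nonneg_of_nonpos hlam'
          (mul_nonpos_of_nonneg_of_nonpos (by linarith) (by linarith))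
      · by_cases h0 : 0 ≤ nu
        · rw [hw1 h0]
          have h0' : (0 : ℝ) ≤ nu := by exact_mod_cast h0
          push_cast
          nlinarith
        · rw [hw2 h0]
          have h0' : (nu : ℝ) ≤ 0 := by exact_mod_cast (not_le.1 h0).le
          push_cast
          nlinarith
  have hs := sq_nonneg (X ^ 2 + Y ^ 2 - rho)
  nlinarith [hb.1, hb.2, hq, hs]

/-- `2 ^ 31` times the coefficients of `sqrt (1 + x)` -/
def betI : ℕ → ℤ
  | 0 => 2147483648
  | 1 => 1073741824
  | 2 => -268435456
  | 3 => 134217728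
  | 4 => -83886080
  | 5 => 58720256
  | 6 => -44040192
  | 7 => 34603008
  | 8 => -28114944
  | 9 => 23429120
  | 10 => -19914752
  | 11 => 17199104
  | 12 => -15049216
  | 13 => 13312768
  | 14 => -11886400
  | 15 => 10697760
  | 16 => -9694845
  | _ => 0

theorem sd_TX : ∀ k < 32, sd 8589934592 4294967296 TX k =
    if (k + 1) % 2 = 0 then - betI ((k + 1) / 2) else
      betI ((k + 2) / 2) + (if k = 0 then 2147483648 else 0) := by
  decide +kernel

theorem sd_TY : ∀ k < 32, sd 8589934592 4294967296 TY k =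
    if (k + 1) % 2 = 0 then betI ((k + 1) / 2) else
      betI ((k + 2) / 2) - (if k = 0 then 2147483648 else 0) := by
  decide +kernel

theorem catalan_step (n : ℕ) : (n + 2) * catalan (n + 1) = 2 * (2 * n + 1) * catalan n := by
  have h1 := succ_mul_catalan_eq_centralBinom n
  have h2 := succ_mul_catalan_eq_centralBinom (n + 1)
  have h3 := Nat.succ_mul_centralBinom_succ n
  rw [← h1, ← h2] at h3
  have : (n + 1) * ((n + 2) * catalan (n + 1)) = (n + 1) * (2 * (2 * n + 1) * catalan n) := by
    linarith
  exact Nat.eq_of_mul_eq_mul_left (by omega) this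

theorem cat_aux {n a : ℕ} (h : catalan n = a) {b : ℕ} (hb : (n + 2) * b = 2 * (2 * n + 1) * a) :
    catalan (n + 1) = b := by
  have h1 := catalan_step n
  rw [h, ← hb] at h1
  exact Nat.eq_of_mul_eq_mul_left (by omega) h1

theorem cat0 : catalan 0 = 1 := catalan_zero
theorem cat1 : catalan 1 = 1 := cat_aux cat0 (by norm_num)
theorem cat2 : catalan 2 = 2 := cat_aux cat1 (by norm_num)
theorem cat3 : catalan 3 = 5 := cat_aux cat2 (by norm_num)
theorem cat4 : catalan 4 = 14 := cat_aux cat3 (by norm_num)
theorem cat5 : catalan 5 = 42 := cat_aux cat4 (by norm_num)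
theorem cat6 : catalan 6 = 132 := cat_aux cat5 (by norm_num)
theorem cat7 : catalan 7 = 429 := cat_aux cat6 (by norm_num)
theorem cat8 : catalan 8 = 1430 := cat_aux cat7 (by norm_num)
theorem cat9 : catalan 9 = 4862 := cat_aux cat8 (by norm_num)
theorem cat10 : catalan 10 = 16796 := cat_aux cat9 (by norm_num)
theorem cat11 : catalan 11 = 58786 := cat_aux cat10 (by norm_num)
theorem cat12 : catalan 12 = 208012 := cat_aux cat11 (by norm_num)
theorem cat13 : catalan 13 = 742900 := cat_aux cat12 (by norm_num)
theorem cat14 : catalan 14 = 2674440 := cat_aux cat13 (by norm_num)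
theorem cat15 : catalan 15 = 9694845 := cat_aux cat14 (by norm_num)
theorem cat16 : catalan 16 = 35357670 := cat_aux cat15 (by norm_num)

theorem bet_eq : ∀ j : ℕ, j ≤ 16 → bet j = (betI j : ℝ) / 2147483648 := by
  intro j hj
  interval_cases j
  · norm_num [bet, betI]
  all_goals
    simp only [bet, betI, cat0, cat1, cat2, cat3, cat4, cat5, cat6, cat7, cat8, cat9, cat10, cat11,
      cat12, cat13, cat14, cat15]
    norm_num

theorem abs_bet_17 : |bet 17| = 35357670 / 8589934592 := by
  simp only [bet, cat16]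
  norm_num

/-- the tail coefficients in terms of the tables -/
theorem tc_eq (l1 l2 : ℝ) {k : ℕ} (hk : k < 32) :
    (tc l1 l2 (k + 1)).re = l1 * (sd 8589934592 4294967296 TX k : ℤ) / 2147483648 ∧
    - (tc l1 l2 (k + 1)).im = l2 * (sd 8589934592 4294967296 TY k : ℤ) / 2147483648 := by
  rw [sd_TX k hk, sd_TY k hk]
  unfold tc
  by_cases h : (k + 1) % 2 = 0
  · rw [if_pos h, if_pos h, if_pos h, bet_eq _ (by omega)]
    constructor
    · simp only [Complex.neg_re, Complex.add_re, Complex.add_im, Complex.mul_re, Complex.mul_im,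
        Complex.ofReal_re, Complex.ofReal_im, Complex.I_re, Complex.I_im, Complex.neg_im]
      push_cast
      ring
    · simp only [Complex.neg_re, Complex.add_re, Complex.add_im, Complex.mul_re, Complex.mul_im,
        Complex.ofReal_re, Complex.ofReal_im, Complex.I_re, Complex.I_im, Complex.neg_im]
      push_cast
      ring
  · rw [if_neg h, if_neg h, if_neg h, bet_eq _ (by omega)]
    by_cases h0 : k = 0
    · subst h0
      constructor
      · simp [betI]
        ring
      · simp [betI]
        ring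
    · rw [if_neg (by omega), if_neg h0]
      rw [show k + 1 + 1 = k + 2 from rfl]
      constructor
      · simp only [Complex.sub_re, Complex.sub_im, Complex.add_re, Complex.add_im, Complex.mul_re,
          Complex.mul_im, Complex.ofReal_re, Complex.ofReal_im, Complex.I_re, Complex.I_im,
          Complex.zero_re, Complex.zero_im]
        push_cast
        ring
      · simp only [Complex.sub_re, Complex.sub_im, Complex.add_re, Complex.add_im, Complex.mul_re,
          Complex.mul_im, Complex.ofReal_re, Complex.ofReal_im, Complex.I_re, Complex.I_im,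
          Complex.zero_re, Complex.zero_im]
        push_cast
        ring

end Run7.h583
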