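import Pool.Agent.Run7.h583.Leaf

/-! The leaf test implies the lower bound on its box. -/

set_option autoImplicit false

open Finset Polynomial

namespace Run7.h583

/-- the lower bound `p / q ≤ M` holds for all good moment sequences in the box -/
def Claim (p q : ℕ) (lo hi : ℕ → ℤ) : Prop :=
  ∀ (M : ℝ) (m : ℕ → ℂ), Good M m →
    (∀ k, (lo k : ℝ) ≤ 16384 * (m (k + 1)).im ∧ 16384 * (m (k + 1)).im ≤ hi k) →
    (p : ℝ) ≤ q * M

/-- the polynomial of the kernel -/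
noncomputable def Dat.PK (d : Dat) : ℤ[X] :=
  corP (sc 1048576 524288 d.qr) (sc 1048576 524288 d.qi) (d.D + 1)

/-- the polynomial of the sum of squares -/
noncomputable def Dat.PT (d : Dat) : ℤ[X] :=
  sosP (sc 16777216 8388608 d.ar) (sc 16777216 8388608 d.ai) (sc 16777216 8388608 d.br)
    (sc 16777216 8388608 d.bi)

theorem Dat.sgK (d : Dat) (hD : d.D ≤ 32) {j : ℕ} (hj : j < 2 * d.D + 1) :
    sg d.YK j = d.PK.coeff j := by
  refine sg_off (N := 2 * d.D + 1) ?_ ?_ ?_ hj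
  · have := natDegree_corP (sc 1048576 524288 d.qr) (sc 1048576 524288 d.qi) (d.D + 1)
    unfold Dat.PK
    omega
  · intro i
    have h1 := (dom_corP (A := 524288) (d.D + 1)
      (fun j _ => abs_sc_le (W := 1048576) (H := 524288) rfl (by norm_num) d.qr j)
      (fun j _ => abs_sc_le (W := 1048576) (H := 524288) rfl (by norm_num) d.qi j)).coeff_le i
    refine lt_of_le_of_lt h1 ?_
    have h2 : ((d.D + 1 : ℕ) : ℤ) ≤ 33 := by
      have := hD
      omega
    have h3 : (0 : ℤ) ≤ ((d.D + 1 : ℕ) : ℤ) := by positivity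
    have h4 : 4 * (((d.D + 1 : ℕ) : ℤ) * 524288) ^ 2 ≤ 4 * (33 * 524288) ^ 2 := by
      gcongr
    refine lt_of_le_of_lt h4 ?_
    norm_num [HB]
  · exact cor_eq _ _ _ _ _

theorem dom_two : Dom (C (2 : ℤ)) 2 := ⟨C 2, fun i => by
  rw [coeff_C]
  split_ifs <;> simp, by simp⟩

theorem dom_sq_add_one : Dom ((X : ℤ[X]) ^ 2 + 1) 2 := by
  have h := (dom_mono (1 : ℤ) 2 (A := 1) (by simp)).add (dom_mono (1 : ℤ) 0 (A := 1) (by simp))
  simpa using h

theorem Dat.sgT (d : Dat) {j : ℕ} (hj : j < 65) : sg d.YT j = d.PT.coeff j := by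
  refine sg_off (N := 65) ?_ ?_ ?_ hj
  · have := natDegree_sosP (sc 16777216 8388608 d.ar) (sc 16777216 8388608 d.ai)
      (sc 16777216 8388608 d.br) (sc 16777216 8388608 d.bi)
    unfold Dat.PT
    omega
  · intro i
    have h1 := dom_corP (A := 8388608) 33
      (fun j _ => abs_sc_le (W := 16777216) (H := 8388608) rfl (by norm_num) d.ar j)
      (fun j _ => abs_sc_le (W := 16777216) (H := 8388608) rfl (by norm_num) d.ai j)
    have h2 := dom_corP (A := 8388608) 32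
      (fun j _ => abs_sc_le (W := 16777216) (H := 8388608) rfl (by norm_num) d.br j)
      (fun j _ => abs_sc_le (W := 16777216) (H := 8388608) rfl (by norm_num) d.bi j)
    have h3 := ((dom_two.mul h1).add (dom_sq_add_one.mul h2)).coeff_le i
    refine lt_of_le_of_lt h3 ?_
    norm_num [HB]
  · unfold Dat.PT sosP
    rw [eval_add, eval_mul, eval_mul, eval_C, eval_add, eval_pow, eval_X, eval_one, ← cor_eq,
      ← cor_eq]
    have : (Int.ofNat (Nat.succ (Nat.mul BB BB))) = (BB : ℤ) ^ 2 + 1 := by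
      show ((BB * BB + 1 : ℕ) : ℤ) = _
      push_cast
      ring
    rw [← this]
    rfl

/-- the kernel coefficient -/
noncomputable def Dat.kap (d : Dat) (k : ℕ) : ℂ := if k ≤ d.D then tcf d.PK d.D k else 0

theorem Dat.kap_eq (d : Dat) (hD : d.D ≤ 32) (k : ℕ) :
    (d.kap (k + 1)).re = ((match Nat.ble (Nat.succ k) d.D with
      | true => cre d.YK d.D (Nat.succ k)
      | false => Int.ofNat 0 : ℤ) : ℝ) ∧
    (d.kap (k + 1)).im = ((match Nat.ble (Nat.succ k) d.D with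
      | true => cim d.YK d.D (Nat.succ k)
      | false => Int.ofNat 0 : ℤ) : ℝ) := by
  unfold Dat.kap
  by_cases h : k + 1 ≤ d.D
  · have hb : Nat.ble (Nat.succ k) d.D = true := Nat.ble_eq_true_of_le h
    rw [if_pos h, hb]
    have e1 : cre d.YK d.D (Nat.succ k) = d.PK.coeff (d.D + (k + 1)) + d.PK.coeff (d.D - (k + 1)) := by
      rw [← d.sgK hD (by omega), ← d.sgK hD (by omega)]
      rfl
    have e2 : cim d.YK d.D (Nat.succ k) = d.PK.coeff (d.D + (k + 1)) - d.PK.coeff (d.D - (k + 1)) := by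
      rw [← d.sgK hD (by omega), ← d.sgK hD (by omega)]
      rfl
    simp only [e1, e2]
    unfold tcf
    rw [if_neg (by omega)]
    simp only [Complex.add_re, Complex.add_im, Complex.mul_re, Complex.mul_im, Complex.intCast_re,
      Complex.intCast_im, Complex.I_re, Complex.I_im]
    constructor <;> ring
  · have hb : Nat.ble (Nat.succ k) d.D = false := by
      rw [Bool.eq_false_iff]
      intro h1
      exact h (Nat.le_of_ble_eq_true h1)
    rw [if_neg h, hb]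
    simp

theorem Dat.tcf_eq (d : Dat) {k : ℕ} (hk : k < 32) :
    (tcf d.PT 32 (k + 1)).re = (cre d.YT 32 (Nat.succ k) : ℤ) ∧
    (tcf d.PT 32 (k + 1)).im = (cim d.YT 32 (Nat.succ k) : ℤ) := by
  have e1 : cre d.YT 32 (Nat.succ k) = d.PT.coeff (32 + (k + 1)) + d.PT.coeff (32 - (k + 1)) := by
    rw [← d.sgT (by omega), ← d.sgT (by omega)]
    rfl
  have e2 : cim d.YT 32 (Nat.succ k) = d.PT.coeff (32 + (k + 1)) - d.PT.coeff (32 - (k + 1)) := by
    rw [← d.sgT (by omega), ← d.sgT (by omega)]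
    rfl
  rw [e1, e2]
  unfold tcf
  rw [if_neg (by omega)]
  simp only [Complex.add_re, Complex.add_im, Complex.mul_re, Complex.mul_im, Complex.intCast_re,
    Complex.intCast_im, Complex.I_re, Complex.I_im]
  constructor <;> ring

/-- the test of one frequency in terms of `stepOk` -/
theorem Dat.step_spec {d : Dat} {YK YT : ℕ} {lo hi : ℕ → ℤ} {k : ℕ}
    (h : Dat.step d YK YT lo hi k = true) : ∃ lam nu a b : ℤ, 0 ≤ lam ∧
      ((lam = 0 ∧ nu = 0) ∨ (a = lo k ∧ b = hi k)) ∧ ∃ rho : ℤ,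
      stepOk (match Nat.ble (Nat.succ k) d.D with
          | true => cre YK d.D (Nat.succ k)
          | false => Int.ofNat 0)
        (match Nat.ble (Nat.succ k) d.D with
          | true => cim YK d.D (Nat.succ k)
          | false => Int.ofNat 0)
        (cre YT 32 (Nat.succ k) + d.l1 * sd 8589934592 4294967296 TX k)
        (d.l2 * sd 8589934592 4294967296 TY k - cim YT 32 (Nat.succ k))
        rho
        (sd 4294967296 2147483648 d.c k * 4294967296) lam nu a b = true := by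
  unfold Dat.step at h
  cases hb : Nat.ble (Nat.succ k) d.m with
  | true =>
    rw [hb] at h
    exact ⟨_, _, _, _, Int.natCast_nonneg _, Or.inr ⟨rfl, rfl⟩, _, h⟩
  | false =>
    rw [hb] at h
    exact ⟨_, _, _, _, le_rfl, Or.inl ⟨rfl, rfl⟩, _, h⟩

theorem Dat.step_real {d : Dat} (hD : d.D ≤ 32) {lo hi : ℕ → ℤ} {k : ℕ} (hk : k < 32)
    (h : Dat.step d d.YK d.YT lo hi k = true) {m : ℂ}
    (hbox : (lo k : ℝ) ≤ 16384 * m.im ∧ 16384 * m.im ≤ hi k) :
    ((sd 4294967296 2147483648 d.c k : ℤ) : ℝ) / 2 ^ 24 +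
      (tcf d.PT 32 (k + 1) * m).re / 2 ^ 42 +
      (tc (d.l1 / 2048) (d.l2 / 2048) (k + 1) * m).re ≤
      (d.kap (k + 1) * m ^ 2).re / 2 ^ 28 + ‖m‖ ^ 4 := by
  obtain ⟨lam, nu, a, b, hlam, hc, rho, h1⟩ := Dat.step_spec h
  have h2 := step_ineq h1 hlam (X := 16384 * m.re) (Y := 16384 * m.im) (by
    rcases hc with hc | ⟨ha, hb⟩
    · exact Or.inl hc
    · right
      rw [ha, hb]
      exact hbox)
  obtain ⟨k1, k2⟩ := d.kap_eq hD k
  rw [← k1, ← k2] at h2
  push_cast at h2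
  obtain ⟨t1, t2⟩ := d.tcf_eq hk
  rw [← t1, ← t2] at h2
  obtain ⟨s1, s2⟩ := tc_eq ((d.l1 : ℝ) / 2048) (d.l2 / 2048) hk
  have e1 : (d.l1 : ℝ) * (sd 8589934592 4294967296 TX k : ℤ) =
      4398046511104 * (tc (d.l1 / 2048) (d.l2 / 2048) (k + 1)).re := by
    rw [s1]
    ring
  have e2 : (d.l2 : ℝ) * (sd 8589934592 4294967296 TY k : ℤ) =
      - (4398046511104 * (tc (d.l1 / 2048) (d.l2 / 2048) (k + 1)).im) := by
    have : (tc (d.l1 / 2048) (d.l2 / 2048) (k + 1)).im =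
      -(d.l2 / 2048 * (sd 8589934592 4294967296 TY k : ℤ) / 2147483648) := by linarith
    rw [this]
    ring
  rw [e1, e2] at h2
  have hn : ‖m‖ ^ 4 = (m.re ^ 2 + m.im ^ 2) ^ 2 := by
    have : ‖m‖ ^ 4 = (‖m‖ ^ 2) ^ 2 := by ring
    rw [this, ← Complex.normSq_eq_norm_sq, Complex.normSq_apply]
    ring
  rw [hn]
  simp only [Complex.mul_re, pow_two m]
  simp only [Complex.mul_im]
  norm_num
  linarith

/-- the meaning of the test `Dat.rat` -/
theorem Dat.rat_spec {d : Dat} (hD : d.D ≤ 32) (h : Dat.rat d d.YK = true) :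
    ∑ k ∈ range d.D, ‖tcf d.PK d.D (k + 1)‖ ^ 2 ≤ 4 * (tcf d.PK d.D 0).re ^ 2 := by
  have h1 : sumr (fun j => dg BB d.YK j * dg BB d.YK j) (2 * d.D + 1) +
      (2 * d.D + 1) * (HB * HB) + 6 * HB * dg BB d.YK d.D ≤
      3 * (dg BB d.YK d.D * dg BB d.YK d.D) + 3 * (HB * HB) +
        2 * HB * sumr (fun j => dg BB d.YK j) (2 * d.D + 1) := Nat.le_of_ble_eq_true h
  rw [sumr_eq, sumr_eq] at h1
  have hdg : ∀ j, j < 2 * d.D + 1 → (dg BB d.YK j : ℤ) = d.PK.coeff j + HB := by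
    intro j hj
    rw [← d.sgK hD hj]
    unfold sg
    rw [subNatNat_eq]
    ring
  have h2 : ((∑ j ∈ range (2 * d.D + 1), (dg BB d.YK j : ℤ) * dg BB d.YK j) +
      (2 * d.D + 1) * (HB * HB) + 6 * HB * dg BB d.YK d.D : ℤ) ≤
      3 * (dg BB d.YK d.D * dg BB d.YK d.D) + 3 * (HB * HB) +
        2 * HB * ∑ j ∈ range (2 * d.D + 1), (dg BB d.YK j : ℤ) := by exact_mod_cast h1
  have e1 : ∑ j ∈ range (2 * d.D + 1), (dg BB d.YK j : ℤ) * dg BB d.YK j =
      ∑ j ∈ range (2 * d.D + 1), (d.PK.coeff j + HB) * (d.PK.coeff j + HB) :=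
    sum_congr rfl fun j hj => by rw [hdg j (mem_range.1 hj)]
  have e2 : ∑ j ∈ range (2 * d.D + 1), (dg BB d.YK j : ℤ) =
      ∑ j ∈ range (2 * d.D + 1), (d.PK.coeff j + (HB : ℤ)) :=
    sum_congr rfl fun j hj => by rw [hdg j (mem_range.1 hj)]
  rw [e1, e2, hdg d.D (by omega)] at h2
  have e3 : ∑ j ∈ range (2 * d.D + 1), (d.PK.coeff j + (HB : ℤ)) * (d.PK.coeff j + HB) =
      ∑ j ∈ range (2 * d.D + 1), d.PK.coeff j ^ 2 +
        2 * HB * ∑ j ∈ range (2 * d.D + 1), d.PK.coeff j + (2 * d.D + 1) * (HB * HB) := by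
    have : ∀ j, (d.PK.coeff j + (HB : ℤ)) * (d.PK.coeff j + HB) =
        d.PK.coeff j ^ 2 + 2 * HB * d.PK.coeff j + HB * HB := fun j => by ring
    simp only [this, sum_add_distrib, ← mul_sum, sum_const, card_range, nsmul_eq_mul]
    push_cast
    ring
  rw [e3, sum_add_distrib, sum_const, card_range, nsmul_eq_mul] at h2
  push_cast at h2
  have h3 : ∑ j ∈ range (2 * d.D + 1), d.PK.coeff j ^ 2 ≤ 3 * d.PK.coeff d.D ^ 2 := by
    linarith
  have h4 : ∑ j ∈ range (2 * d.D + 1), d.PK.coeff j ^ 2 =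
      ∑ k ∈ range d.D, (d.PK.coeff (d.D + (k + 1)) ^ 2 + d.PK.coeff (d.D - (k + 1)) ^ 2) +
        d.PK.coeff d.D ^ 2 := by
    rw [show 2 * d.D + 1 = d.D + (d.D + 1) by ring, sum_range_add, sum_range_succ',
      ← sum_range_reflect, sum_add_distrib, add_zero]
    have : ∑ k ∈ range d.D, d.PK.coeff (d.D - 1 - k) ^ 2 =
        ∑ k ∈ range d.D, d.PK.coeff (d.D - (k + 1)) ^ 2 :=
      sum_congr rfl fun k _ => by rw [show d.D - 1 - k = d.D - (k + 1) by omega]
    rw [this]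
    ring
  have h5 : ∀ k, ‖tcf d.PK d.D (k + 1)‖ ^ 2 =
      2 * ((d.PK.coeff (d.D + (k + 1)) ^ 2 + d.PK.coeff (d.D - (k + 1)) ^ 2 : ℤ) : ℝ) := by
    intro k
    unfold tcf
    rw [if_neg (by omega), ← Complex.normSq_eq_norm_sq]
    simp only [Complex.normSq_apply, Complex.add_re, Complex.add_im, Complex.mul_re, Complex.mul_im,
      Complex.intCast_re, Complex.intCast_im, Complex.I_re, Complex.I_im]
    push_cast
    ring
  simp only [h5, ← mul_sum]
  have h6 : (tcf d.PK d.D 0).re = ((d.PK.coeff d.D : ℤ) : ℝ) := by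
    unfold tcf
    rw [if_pos rfl, Complex.intCast_re]
  rw [h6]
  have h7 : ∑ k ∈ range d.D, (d.PK.coeff (d.D + (k + 1)) ^ 2 + d.PK.coeff (d.D - (k + 1)) ^ 2) ≤
      2 * d.PK.coeff d.D ^ 2 := by linarith
  have h8 : (∑ k ∈ range d.D, ((d.PK.coeff (d.D + (k + 1)) ^ 2 +
      d.PK.coeff (d.D - (k + 1)) ^ 2 : ℤ) : ℝ)) ≤ 2 * ((d.PK.coeff d.D : ℤ) : ℝ) ^ 2 := by
    exact_mod_cast h7
  linarith

theorem Dat.ok_claim {d : Dat} {p q : ℕ} {lo hi : ℕ → ℤ} (h : d.ok p q lo hi = true) :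
    Claim p q lo hi := by
  intro M m hg hbox
  have h' : ((Nat.ble d.D 32 && (d.tail && Dat.rat d d.YK)) && (Dat.fin d p q d.YK d.YT &&
    allr (Dat.step d d.YK d.YT lo hi) 32)) = true := h
  simp only [Bool.and_eq_true] at h'
  obtain ⟨⟨hD, ht, hrat⟩, hf, hs⟩ := h'
  have hD : d.D ≤ 32 := Nat.le_of_ble_eq_true hD
  -- the tail condition
  have ht' : 1157625 * 35357670 ^ 4 * ((d.l1 * d.l1 + d.l2 * d.l2).toNat *
      (d.l1 * d.l1 + d.l2 * d.l2).toNat) ≤ 2 ^ 124 * d.ct ^ 3 := Nat.le_of_ble_eq_true ht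
  have hs0 : (0 : ℤ) ≤ d.l1 * d.l1 + d.l2 * d.l2 :=
    add_nonneg (mul_self_nonneg _) (mul_self_nonneg _)
  have hsr : (((d.l1 * d.l1 + d.l2 * d.l2).toNat : ℕ) : ℝ) = (d.l1 : ℝ) * d.l1 + d.l2 * d.l2 := by
    have : (((d.l1 * d.l1 + d.l2 * d.l2).toNat : ℕ) : ℤ) = d.l1 * d.l1 + d.l2 * d.l2 :=
      Int.toNat_of_nonneg hs0
    exact_mod_cast this
  have ht2 : (1157625 : ℝ) * 35357670 ^ 4 * (((d.l1 : ℝ) * d.l1 + d.l2 * d.l2) *
      ((d.l1 : ℝ) * d.l1 + d.l2 * d.l2)) ≤ 2 ^ 124 * (d.ct : ℝ) ^ 3 := by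
    rw [← hsr]
    exact_mod_cast ht'
  have htail := hg.tail (n0 := 16) (by norm_num) (l1 := (d.l1 : ℝ) / 2048) (l2 := d.l2 / 2048)
    (Ct := d.ct / 2 ^ 20) (by positivity) (by
      rw [show 16 + 1 = 17 from rfl, abs_bet_17]
      push_cast
      nlinarith [ht2])
  rw [show 2 * 16 = 32 from rfl, sum_range_succ' _ 32] at htail
  have hK := hg.conv d.D (tcf d.PK d.D) (cor_tp_nonneg _ _ _) (Dat.rat_spec hD hrat)
  have hT := hg.arc 32 (tcf d.PT 32) (sos_tp_nonneg _ _ _ _)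
  rw [sum_range_succ'] at hK hT
  have hK0 : tcf d.PK d.D 0 = ((sg d.YK d.D : ℤ) : ℂ) := by
    unfold tcf
    rw [if_pos rfl, d.sgK hD (by omega)]
  have hT0 : tcf d.PT 32 0 = ((sg d.YT 32 : ℤ) : ℂ) := by
    unfold tcf
    rw [if_pos rfl, d.sgT (by omega)]
  have htc0 : (tc ((d.l1 : ℝ) / 2048) (d.l2 / 2048) 0 * m 0).re = - (d.l1 / 2048) := by
    rw [hg.zero]
    simp [tc, bet]
  rw [hK0, hg.zero] at hK
  rw [hT0, hg.zero] at hT
  rw [htc0] at htail
  simp only [one_pow, mul_one, Complex.intCast_re] at hK hT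
  have hKsum : ∑ k ∈ range d.D, (tcf d.PK d.D (k + 1) * m (k + 1) ^ 2).re =
      ∑ k ∈ range 32, (d.kap (k + 1) * m (k + 1) ^ 2).re := by
    have h1 : ∑ k ∈ range d.D, (tcf d.PK d.D (k + 1) * m (k + 1) ^ 2).re =
        ∑ k ∈ range d.D, (d.kap (k + 1) * m (k + 1) ^ 2).re := by
      refine sum_congr rfl fun k hk => ?_
      rw [mem_range] at hk
      unfold Dat.kap
      rw [if_pos (by omega)]
    rw [h1]
    refine sum_subset (range_subset_range.2 hD) fun k _ hk => ?_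
    rw [mem_range, not_lt] at hk
    unfold Dat.kap
    rw [if_neg (by omega), zero_mul, Complex.zero_re]
  rw [hKsum] at hK
  have hsum : ∑ k ∈ range 32, (((sd 4294967296 2147483648 d.c k : ℤ) : ℝ) / 2 ^ 24 +
      (tcf d.PT 32 (k + 1) * m (k + 1)).re / 2 ^ 42 +
      (tc (d.l1 / 2048) (d.l2 / 2048) (k + 1) * m (k + 1)).re) ≤
      ∑ k ∈ range 32, ((d.kap (k + 1) * m (k + 1) ^ 2).re / 2 ^ 28 + ‖m (k + 1)‖ ^ 4) := by
    refine sum_le_sum fun k hk => ?_
    rw [mem_range] at hk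
    exact Dat.step_real hD hk (allr_spec hs k hk) (hbox k)
  rw [sum_add_distrib, sum_add_distrib, sum_add_distrib, ← sum_div, ← sum_div, ← sum_div] at hsum
  have hc : ∑ k ∈ range 32, ((sd 4294967296 2147483648 d.c k : ℤ) : ℝ) =
      ((sumr (fun k => dg 4294967296 d.c k) 32 : ℕ) : ℝ) - 68719476736 := by
    rw [sumr_eq]
    push_cast
    have : ∀ k, ((sd 4294967296 2147483648 d.c k : ℤ) : ℝ) =
        (dg 4294967296 d.c k : ℝ) - 2147483648 := by
      intro k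
      unfold sd
      rw [subNatNat_eq]
      push_cast
      ring
    simp only [this, sum_sub_distrib, sum_const, card_range]
    norm_num
  rw [hc] at hsum
  -- the final inequality
  unfold Dat.fin at hf
  simp only [Bool.and_eq_true, nn_iff] at hf
  obtain ⟨f1, f2⟩ := hf
  have f2' : (0 : ℤ) ≤ (q : ℤ) * (sg d.YK d.D * 268435456 + 36028797018963968 +
      (Int.subNatNat (sumr (fun k => dg 4294967296 d.c k) 32) 68719476736) * 4294967296 -
      sg d.YT 32 * 16384 + d.l1 * 35184372088832 - ((d.ct * 68719476736 : ℕ) : ℤ) - 0) -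
      ((p * 268435456 : ℕ) : ℤ) * (sg d.YK d.D + sg d.YK d.D + 268435456) := f2
  rw [subNatNat_eq] at f2'
  have f3 : (0 : ℝ) ≤ (q : ℝ) * (sg d.YK d.D * 268435456 + 36028797018963968 +
      (((sumr (fun k => dg 4294967296 d.c k) 32 : ℕ) : ℝ) - 68719476736) * 4294967296 -
      sg d.YT 32 * 16384 + d.l1 * 35184372088832 - d.ct * 68719476736) -
      (p * 268435456) * (sg d.YK d.D + sg d.YK d.D + 268435456) := by
    have := f2'
    rw [sub_zero] at this
    exact_mod_cast this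
  have f1' : (0 : ℝ) ≤ sg d.YK d.D := by exact_mod_cast f1
  set K0 : ℝ := ((sg d.YK d.D : ℤ) : ℝ) with hK0d
  set S0 : ℝ := ((sg d.YT 32 : ℤ) : ℝ) with hS0d
  set G : ℝ := ((sumr (fun k => dg 4294967296 d.c k) 32 : ℕ) : ℝ) with hG
  set s1 := ∑ k ∈ range 32, (d.kap (k + 1) * m (k + 1) ^ 2).re with hs1
  set s2 := ∑ k ∈ range 32, ‖m (k + 1)‖ ^ 4 with hs2
  set s3 := ∑ k ∈ range 32, (tcf d.PT 32 (k + 1) * m (k + 1)).re with hs3
  set s4 := ∑ k ∈ range 32, (tc (d.l1 / 2048) (d.l2 / 2048) (k + 1) * m (k + 1)).re with hs4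
  have key : K0 * 268435456 + 36028797018963968 + (G - 68719476736) * 4294967296 -
      S0 * 16384 + d.l1 * 35184372088832 - d.ct * 68719476736 ≤
      M * (268435456 * (K0 + K0 + 268435456)) := by
    norm_num at hsum
    norm_num at htail
    linarith
  have hpos : 0 < 268435456 * (K0 + K0 + 268435456) := by positivity
  have hq0 : (0 : ℝ) ≤ q := by positivity
  have h5 := mul_le_mul_of_nonneg_left key hq0
  have h6 : (p : ℝ) * (268435456 * (K0 + K0 + 268435456)) ≤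
      (q * M) * (268435456 * (K0 + K0 + 268435456)) := by
    linarith
  exact le_of_mul_le_mul_right h6 hpos

end Run7.h583
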