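import Pool.Agent.Run7.h583.Core

/-! The tail inequality: the quartic terms of the high frequencies, bounded from below with the
help of a function with square root singularities that vanishes on the arc. -/

set_option autoImplicit false

open MeasureTheory Set Complex Finset Filter Topology

namespace Run7.h583

/-- coefficients of `sqrt (1 + x)` -/
noncomputable def bet : ℕ → ℝ
  | 0 => 1
  | n + 1 => (-1) ^ n * (catalan n : ℝ) / 2 ^ (2 * n + 1)

/-- `binomial (2n, n) / 4 ^ n` -/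
noncomputable def gam (n : ℕ) : ℝ := (Nat.centralBinom n : ℝ) / 4 ^ n

theorem gam_pos (n : ℕ) : 0 < gam n := by
  unfold gam
  have := Nat.centralBinom_pos n
  positivity

theorem gam_succ (n : ℕ) : gam (n + 1) = gam n * ((2 * n + 1) / (2 * n + 2)) := by
  unfold gam
  have h := Nat.succ_mul_centralBinom_succ n
  have h' : ((n : ℝ) + 1) * (Nat.centralBinom (n + 1) : ℝ) =
      2 * (2 * n + 1) * (Nat.centralBinom n : ℝ) := by exact_mod_cast h
  have hn : (n : ℝ) + 1 ≠ 0 := by positivity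
  rw [pow_succ]
  field_simp
  linear_combination 2 * h'

theorem abs_bet_succ (n : ℕ) : |bet (n + 1)| = gam n / (2 * n + 2) := by
  have h := succ_mul_catalan_eq_centralBinom n
  have h' : ((n : ℝ) + 1) * (catalan n : ℝ) = (Nat.centralBinom n : ℝ) := by exact_mod_cast h
  rw [bet, abs_div, abs_mul, abs_pow, abs_neg, abs_one, one_pow, one_mul, Nat.abs_cast, abs_pow,
    abs_two]
  unfold gam
  rw [← h']
  have : (2 : ℝ) ^ (2 * n + 1) = 2 * 4 ^ n := by
    rw [pow_succ, pow_mul]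
    norm_num
    ring
  rw [this]
  have hn : (n : ℝ) + 1 ≠ 0 := by positivity
  field_simp

theorem sum_abs_bet (n : ℕ) : ∑ j ∈ range n, |bet (j + 1)| = 1 - gam n := by
  induction n with
  | zero => simp [gam]
  | succ n ih =>
    rw [sum_range_succ, ih, abs_bet_succ, gam_succ]
    have hn : (n : ℝ) + 1 ≠ 0 := by positivity
    field_simp
    ring

theorem summable_abs_bet : Summable fun j => |bet j| := by
  rw [← summable_nat_add_iff 1]
  refine summable_of_sum_range_le (c := 1) (fun _ => abs_nonneg _) fun n => ?_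
  rw [sum_abs_bet]
  linarith [gam_pos n]

theorem bet_conv (n : ℕ) : ∑ x ∈ Finset.HasAntidiagonal.antidiagonal (n + 2), bet x.1 * bet x.2 = 0 := by
  rw [Finset.Nat.antidiagonal_succ, Finset.sum_cons, Finset.sum_map]
  rw [Finset.Nat.antidiagonal_succ', Finset.sum_cons, Finset.sum_map]
  simp only [Function.Embedding.coe_prodMap, Function.Embedding.coeFn_mk, Prod.map_fst,
    Prod.map_snd, Function.Embedding.refl_apply, Nat.succ_eq_add_one]
  have h1 : ∀ x ∈ Finset.HasAntidiagonal.antidiagonal n, bet (x.1 + 1) * bet (x.2 + 1) =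
      (-1) ^ n / 2 ^ (2 * n + 2) * ((catalan x.1 * catalan x.2 : ℕ) : ℝ) := by
    intro x hx
    rw [Finset.HasAntidiagonal.mem_antidiagonal] at hx
    subst hx
    simp only [bet]
    push_cast
    have e1 : (2 : ℝ) ^ (2 * (x.1 + x.2) + 2) = 2 ^ (2 * x.1 + 1) * 2 ^ (2 * x.2 + 1) := by
      rw [← pow_add]
      congr 1
      ring
    rw [e1, pow_add (-1 : ℝ)]
    have h2 : (2 : ℝ) ^ (2 * x.1 + 1) ≠ 0 := by positivity
    have h3 : (2 : ℝ) ^ (2 * x.2 + 1) ≠ 0 := by positivity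
    field_simp
  rw [Finset.sum_congr rfl h1, ← Finset.mul_sum]
  have h2 : ∑ x ∈ Finset.HasAntidiagonal.antidiagonal n, ((catalan x.1 * catalan x.2 : ℕ) : ℝ) = (catalan (n + 1) : ℝ) := by
    rw [catalan_succ']
    push_cast
    rfl
  rw [h2]
  simp only [bet]
  have e1 : (2 : ℝ) ^ (2 * (n + 1) + 1) = 2 * 2 ^ (2 * n + 2) := by
    rw [← pow_succ']
    congr 1
  rw [e1, pow_succ (-1 : ℝ)]
  have h3 : (2 : ℝ) ^ (2 * n + 2) ≠ 0 := by positivity
  field_simp
  ring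

/-- the function `sqrt (1 + ζ)` on the closed unit disc -/
noncomputable def R (ζ : ℂ) : ℂ := ∑' j, (bet j : ℂ) * ζ ^ j

theorem norm_term_le {ζ : ℂ} (h : ‖ζ‖ ≤ 1) (j : ℕ) : ‖(bet j : ℂ) * ζ ^ j‖ ≤ |bet j| := by
  rw [norm_mul, norm_pow, Complex.norm_real, Real.norm_eq_abs]
  exact mul_le_of_le_one_right (abs_nonneg _) (pow_le_one₀ (norm_nonneg _) h)

theorem summable_norm_term {ζ : ℂ} (h : ‖ζ‖ ≤ 1) : Summable fun j => ‖(bet j : ℂ) * ζ ^ j‖ :=
  Summable.of_nonneg_of_le (fun _ => norm_nonneg _) (norm_term_le h) summable_abs_bet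

theorem R_sq {ζ : ℂ} (h : ‖ζ‖ ≤ 1) : R ζ ^ 2 = 1 + ζ := by
  unfold R
  rw [sq, tsum_mul_tsum_eq_tsum_sum_antidiagonal_of_summable_norm (summable_norm_term h)
    (summable_norm_term h)]
  have h1 : ∀ n, ∑ x ∈ Finset.HasAntidiagonal.antidiagonal n, (bet x.1 : ℂ) * ζ ^ x.1 * ((bet x.2 : ℂ) * ζ ^ x.2) =
      ((∑ x ∈ Finset.HasAntidiagonal.antidiagonal n, bet x.1 * bet x.2 : ℝ) : ℂ) * ζ ^ n := by
    intro n
    push_cast
    rw [Finset.sum_mul]
    refine Finset.sum_congr rfl fun x hx => ?_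
    rw [Finset.HasAntidiagonal.mem_antidiagonal] at hx
    rw [← hx, pow_add]
    ring
  simp_rw [h1]
  rw [tsum_eq_sum (s := range 2)]
  · simp [Finset.sum_range_succ, Finset.Nat.antidiagonal_succ, bet]
    ring
  · intro n hn
    rw [Finset.mem_range, not_lt] at hn
    obtain ⟨k, rfl⟩ := Nat.exists_eq_add_of_le hn
    rw [add_comm 2 k, bet_conv]
    simp

theorem e_pow (k : ℕ) (u : ℝ) : e k u = e 1 u ^ k := by
  unfold e
  rw [← Complex.exp_nat_mul]
  congr 1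
  push_cast
  ring

/-- coefficients of the function that vanishes on the arc -/
noncomputable def tc (l1 l2 : ℝ) (k : ℕ) : ℂ :=
  if k % 2 = 0 then -((l1 : ℂ) + l2 * I) * bet (k / 2)
  else ((l1 : ℂ) - l2 * I) * bet ((k + 1) / 2) + (if k = 1 then ((l1 : ℂ) + l2 * I) else 0)

/-- partial sums of `sqrt (1 + z ^ 2)` -/
noncomputable def A (n : ℕ) (z : ℂ) : ℂ := ∑ j ∈ range (n + 1), (bet j : ℂ) * (z ^ 2) ^ j

theorem tp_tc_aux (l1 l2 : ℝ) {n : ℕ} (hn : 1 ≤ n) {z : ℂ} (hz : (starRingEnd ℂ) z * z = 1) :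
    ∑ k ∈ range (2 * n + 1), (tc l1 l2 k * z ^ k).re =
      l1 * (((starRingEnd ℂ) z - 1) * A n z).re + l2 * (((starRingEnd ℂ) z + 1) * A n z).im := by
  induction n, hn using Nat.le_induction with
  | base =>
    unfold A
    have h2 : (starRingEnd ℂ) z * z ^ 2 = z := by
      rw [sq, ← mul_assoc, hz, one_mul]
    have e1 : ((starRingEnd ℂ) z - 1) * (1 + 1 / 2 * z ^ 2) =
        (starRingEnd ℂ) z - 1 + (1 / 2) * z - (1 / 2) * z ^ 2 := by
      linear_combination (1 / 2) * h2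
    have e2 : ((starRingEnd ℂ) z + 1) * (1 + 1 / 2 * z ^ 2) =
        (starRingEnd ℂ) z + 1 + (1 / 2) * z + (1 / 2) * z ^ 2 := by
      linear_combination (1 / 2) * h2
    have e3 : ∑ j ∈ range (1 + 1), (bet j : ℂ) * (z ^ 2) ^ j = 1 + 1 / 2 * z ^ 2 := by
      simp [Finset.sum_range_succ, bet]
    rw [e3, e1, e2]
    simp only [Finset.sum_range_succ, Finset.sum_range_zero, tc, bet]
    norm_num [Complex.add_re, Complex.mul_re, Complex.mul_im, pow_succ]
    ring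
  | succ n hn ih =>
    have h2 : (starRingEnd ℂ) z * (z ^ 2) ^ (n + 1) = z ^ (2 * n + 1) := by
      rw [← pow_mul, show 2 * (n + 1) = (2 * n + 1) + 1 by ring, pow_succ, mul_comm, mul_assoc,
        mul_comm z, hz, mul_one]
    have hA : A (n + 1) z = A n z + (bet (n + 1) : ℂ) * (z ^ 2) ^ (n + 1) := by
      unfold A
      rw [Finset.sum_range_succ]
    rw [show 2 * (n + 1) + 1 = (2 * n + 1) + 1 + 1 by ring, Finset.sum_range_succ,
      Finset.sum_range_succ, ih, hA]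
    have t1 : tc l1 l2 (2 * n + 1) = ((l1 : ℂ) - l2 * I) * bet (n + 1) := by
      unfold tc
      rw [if_neg (by omega), if_neg (by omega), show (2 * n + 1 + 1) / 2 = n + 1 by omega, add_zero]
    have t2 : tc l1 l2 (2 * n + 1 + 1) = -((l1 : ℂ) + l2 * I) * bet (n + 1) := by
      unfold tc
      rw [if_pos (by omega), show (2 * n + 1 + 1) / 2 = n + 1 by omega]
    rw [t1, t2]
    have e1 : ((starRingEnd ℂ) z - 1) * (A n z + (bet (n + 1) : ℂ) * (z ^ 2) ^ (n + 1)) =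
        ((starRingEnd ℂ) z - 1) * A n z + (bet (n + 1) : ℂ) *
          (z ^ (2 * n + 1) - z ^ (2 * n + 1 + 1)) := by
      rw [← h2, show z ^ (2 * n + 1 + 1) = (z ^ 2) ^ (n + 1) by rw [← pow_mul]; congr 1]
      ring
    have e2 : ((starRingEnd ℂ) z + 1) * (A n z + (bet (n + 1) : ℂ) * (z ^ 2) ^ (n + 1)) =
        ((starRingEnd ℂ) z + 1) * A n z + (bet (n + 1) : ℂ) *
          (z ^ (2 * n + 1) + z ^ (2 * n + 1 + 1)) := by
      rw [← h2, show z ^ (2 * n + 1 + 1) = (z ^ 2) ^ (n + 1) by rw [← pow_mul]; congr 1]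
      ring
    rw [e1, e2]
    simp only [Complex.add_re, Complex.add_im, Complex.sub_re, Complex.sub_im, Complex.mul_re,
      Complex.mul_im, Complex.neg_re, Complex.neg_im, Complex.ofReal_re, Complex.ofReal_im,
      Complex.I_re, Complex.I_im]
    ring

theorem tp_tc (l1 l2 : ℝ) {n : ℕ} (hn : 1 ≤ n) (u : ℝ) :
    tp (tc l1 l2) (2 * n) u =
      l1 * (((starRingEnd ℂ) (e 1 u) - 1) * A n (e 1 u)).re +
      l2 * (((starRingEnd ℂ) (e 1 u) + 1) * A n (e 1 u)).im := by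
  have hz : (starRingEnd ℂ) (e 1 u) * e 1 u = 1 := by
    rw [mul_comm, Complex.mul_conj, Complex.normSq_eq_norm_sq, norm_e]
    norm_num
  rw [← tp_tc_aux l1 l2 hn hz]
  unfold tp
  exact Finset.sum_congr rfl fun k _ => by rw [e_pow k u]

/-- remainder of the absolutely convergent series -/
noncomputable def rho (n : ℕ) : ℝ := ∑' j, |bet (j + (n + 1))|

theorem rho_tendsto : Tendsto rho atTop (𝓝 0) := by
  have := tendsto_sum_nat_add (fun j => |bet j|)
  exact this.comp (tendsto_add_atTop_nat 1)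

theorem norm_A_sub {z : ℂ} (hz : ‖z‖ ≤ 1) (n : ℕ) : ‖A n z - R (z ^ 2)‖ ≤ rho n := by
  have h1 : ‖z ^ 2‖ ≤ 1 := by
    rw [norm_pow]
    exact pow_le_one₀ (norm_nonneg _) hz
  have hs : Summable fun j => (bet j : ℂ) * (z ^ 2) ^ j := (summable_norm_term h1).of_norm
  have h2 : A n z + ∑' j, (bet (j + (n + 1)) : ℂ) * (z ^ 2) ^ (j + (n + 1)) = R (z ^ 2) :=
    hs.sum_add_tsum_nat_add (n + 1)
  have h3 : A n z - R (z ^ 2) = -∑' j, (bet (j + (n + 1)) : ℂ) * (z ^ 2) ^ (j + (n + 1)) := by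
    linear_combination h2
  rw [h3, norm_neg]
  have hs2 : Summable fun j => |bet (j + (n + 1))| :=
    (summable_nat_add_iff (f := fun j => |bet j|) (n + 1)).2 summable_abs_bet
  unfold rho
  exact tsum_of_norm_bounded hs2.hasSum fun j => norm_term_le h1 (j + (n + 1))

theorem re_W {u : ℝ} (hu : |u| ≤ 1 / 2) :
    (((starRingEnd ℂ) (e 1 u) - 1) * R (e 1 u ^ 2)).re = 0 := by
  set z := e 1 u with hz
  have hn : ‖z ^ 2‖ ≤ 1 := by
    rw [norm_pow, hz, norm_e]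
    norm_num
  have hzz : (starRingEnd ℂ) z * z = 1 := by
    rw [mul_comm, Complex.mul_conj, Complex.normSq_eq_norm_sq, hz, norm_e]
    norm_num
  have hcos : 0 ≤ z.re := by
    rw [hz]
    unfold e
    rw [Complex.exp_ofReal_mul_I_re]
    apply Real.cos_nonneg_of_mem_Icc
    rw [abs_le] at hu
    have := Real.pi_pos
    constructor
    · push_cast
      nlinarith [hu.1]
    · push_cast
      nlinarith [hu.2]
  have hre1 : z.re ≤ 1 := by
    have := Complex.abs_re_le_norm z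
    rw [hz, norm_e] at this
    exact (le_abs_self _).trans this
  set W := ((starRingEnd ℂ) z - 1) * R (z ^ 2) with hW
  have hW2 : W ^ 2 = ((2 * z.re * (2 * z.re - 2) : ℝ) : ℂ) := by
    rw [hW, mul_pow, R_sq hn]
    have h1 : (1 : ℂ) + z ^ 2 = z * (2 * z.re : ℝ) := by
      have : ((2 * z.re : ℝ) : ℂ) = z + (starRingEnd ℂ) z := by
        rw [Complex.add_conj]
      rw [this]
      linear_combination -hzz
    have h2 : ((starRingEnd ℂ) z - 1) ^ 2 * z = ((2 * z.re - 2 : ℝ) : ℂ) := by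
      have : ((2 * z.re - 2 : ℝ) : ℂ) = z + (starRingEnd ℂ) z - 2 := by
        rw [Complex.add_conj]
        push_cast
        ring
      rw [this]
      linear_combination ((starRingEnd ℂ) z - 2) * hzz
    rw [h1, ← mul_assoc, h2]
    push_cast
    ring
  have h1 : W.re ^ 2 - W.im ^ 2 ≤ 0 := by
    have := congrArg Complex.re hW2
    rw [sq, Complex.mul_re, Complex.ofReal_re] at this
    nlinarith
  have h2 : W.re * W.im = 0 := by
    have := congrArg Complex.im hW2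
    rw [sq, Complex.mul_im, Complex.ofReal_im] at this
    linarith
  rcases mul_eq_zero.1 h2 with h | h
  · exact h
  · rw [h] at h1
    nlinarith

theorem im_W {u : ℝ} (hu : |u| ≤ 1 / 2) :
    (((starRingEnd ℂ) (e 1 u) + 1) * R (e 1 u ^ 2)).im = 0 := by
  set z := e 1 u with hz
  have hn : ‖z ^ 2‖ ≤ 1 := by
    rw [norm_pow, hz, norm_e]
    norm_num
  have hzz : (starRingEnd ℂ) z * z = 1 := by
    rw [mul_comm, Complex.mul_conj, Complex.normSq_eq_norm_sq, hz, norm_e]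
    norm_num
  have hcos : 0 ≤ z.re := by
    rw [hz]
    unfold e
    rw [Complex.exp_ofReal_mul_I_re]
    apply Real.cos_nonneg_of_mem_Icc
    rw [abs_le] at hu
    have := Real.pi_pos
    constructor
    · push_cast
      nlinarith [hu.1]
    · push_cast
      nlinarith [hu.2]
  set W := ((starRingEnd ℂ) z + 1) * R (z ^ 2) with hW
  have hW2 : W ^ 2 = ((2 * z.re * (2 * z.re + 2) : ℝ) : ℂ) := by
    rw [hW, mul_pow, R_sq hn]
    have h1 : (1 : ℂ) + z ^ 2 = z * (2 * z.re : ℝ) := by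
      have : ((2 * z.re : ℝ) : ℂ) = z + (starRingEnd ℂ) z := by
        rw [Complex.add_conj]
      rw [this]
      linear_combination -hzz
    have h2 : ((starRingEnd ℂ) z + 1) ^ 2 * z = ((2 * z.re + 2 : ℝ) : ℂ) := by
      have : ((2 * z.re + 2 : ℝ) : ℂ) = z + (starRingEnd ℂ) z + 2 := by
        rw [Complex.add_conj]
        push_cast
        ring
      rw [this]
      linear_combination ((starRingEnd ℂ) z + 2) * hzz
    rw [h1, ← mul_assoc, h2]
    push_cast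
    ring
  have h1 : 0 ≤ W.re ^ 2 - W.im ^ 2 := by
    have := congrArg Complex.re hW2
    rw [sq, Complex.mul_re, Complex.ofReal_re] at this
    nlinarith
  have h2 : W.re * W.im = 0 := by
    have := congrArg Complex.im hW2
    rw [sq, Complex.mul_im, Complex.ofReal_im] at this
    linarith
  rcases mul_eq_zero.1 h2 with h | h
  · rw [h] at h1
    nlinarith
  · exact h

theorem abs_tp_tc_le (l1 l2 : ℝ) {n : ℕ} (hn : 1 ≤ n) {u : ℝ} (hu : |u| ≤ 1 / 2) :
    |tp (tc l1 l2) (2 * n) u| ≤ 2 * (|l1| + |l2|) * rho n := by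
  rw [tp_tc l1 l2 hn]
  have h1 := re_W hu
  have h2 := im_W hu
  set z := e 1 u with hz
  have hz1 : ‖z‖ = 1 := norm_e 1 u
  have hd := norm_A_sub hz1.le n
  have e1 : (((starRingEnd ℂ) z - 1) * A n z).re =
      (((starRingEnd ℂ) z - 1) * (A n z - R (z ^ 2))).re := by
    rw [mul_sub ((starRingEnd ℂ) z - 1), Complex.sub_re, h1, sub_zero]
  have e2 : (((starRingEnd ℂ) z + 1) * A n z).im =
      (((starRingEnd ℂ) z + 1) * (A n z - R (z ^ 2))).im := by
    rw [mul_sub ((starRingEnd ℂ) z + 1), Complex.sub_im, h2, sub_zero]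
  rw [e1, e2]
  have b1 : |(((starRingEnd ℂ) z - 1) * (A n z - R (z ^ 2))).re| ≤ 2 * rho n := by
    refine (Complex.abs_re_le_norm _).trans ?_
    rw [norm_mul]
    refine mul_le_mul ?_ hd (norm_nonneg _) (by norm_num)
    refine (norm_sub_le _ _).trans ?_
    rw [Complex.norm_conj, hz1, norm_one]
    norm_num
  have b2 : |(((starRingEnd ℂ) z + 1) * (A n z - R (z ^ 2))).im| ≤ 2 * rho n := by
    refine (Complex.abs_im_le_norm _).trans ?_
    rw [norm_mul]
    refine mul_le_mul ?_ hd (norm_nonneg _) (by norm_num)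
    refine (norm_add_le _ _).trans ?_
    rw [Complex.norm_conj, hz1, norm_one]
    norm_num
  refine (abs_add_le _ _).trans ?_
  rw [abs_mul, abs_mul]
  nlinarith [abs_nonneg l1, abs_nonneg l2]

theorem Good.tc_ge {M : ℝ} {m : ℕ → ℂ} (h : Good M m) (l1 l2 : ℝ) {n : ℕ} (hn : 1 ≤ n) :
    -(2 * (|l1| + |l2|) * rho n) ≤ ∑ k ∈ range (2 * n + 1), (tc l1 l2 k * m k).re := by
  set δ := 2 * (|l1| + |l2|) * rho n with hδ
  have h1 := h.arc (2 * n) (fun k => tc l1 l2 k + if k = 0 then (δ : ℂ) else 0) (fun u hu => by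
    have h2 := abs_tp_tc_le l1 l2 hn hu
    rw [abs_le] at h2
    have h3 : tp (fun k => tc l1 l2 k + if k = 0 then (δ : ℂ) else 0) (2 * n) u =
        tp (tc l1 l2) (2 * n) u + δ := by
      unfold tp
      simp only [add_mul, Complex.add_re, Finset.sum_add_distrib, ite_mul, zero_mul]
      congr 1
      rw [Finset.sum_eq_single 0]
      · simp [e_zero]
      · intro b _ hb
        simp [hb]
      · intro h0
        exact absurd (Finset.mem_range.2 (by omega)) h0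
    rw [h3]
    linarith [h2.1])
  have h3 : ∑ k ∈ range (2 * n + 1), ((tc l1 l2 k + if k = 0 then (δ : ℂ) else 0) * m k).re =
      ∑ k ∈ range (2 * n + 1), (tc l1 l2 k * m k).re + δ := by
    simp only [add_mul, Complex.add_re, Finset.sum_add_distrib, ite_mul, zero_mul]
    congr 1
    rw [Finset.sum_eq_single 0]
    · simp [h.zero]
    · intro b _ hb
      simp [hb]
    · intro h0
      exact absurd (Finset.mem_range.2 (by omega)) h0
  rw [h3] at h1
  linarith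

theorem abs_bet_ratio (j : ℕ) : |bet (j + 2)| = |bet (j + 1)| * ((2 * j + 1) / (2 * j + 4)) := by
  rw [abs_bet_succ, abs_bet_succ, gam_succ]
  have h1 : (j : ℝ) + 1 ≠ 0 := by positivity
  push_cast
  have h2 : (2 : ℝ) * j + 4 = 2 * (j + 1) + 2 := by ring
  rw [h2]
  have h3 : (2 : ℝ) * (j + 1) + 2 ≠ 0 := by positivity
  field_simp

/-- the quantity that decreases with `j` -/
theorem bet_mono (j : ℕ) :
    |bet (j + 2)| ^ 4 * ((j + 5 / 2) * (j + 3 / 2)) ^ 3 ≤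
      |bet (j + 1)| ^ 4 * (((j : ℝ) + 3 / 2) * (j + 1 / 2)) ^ 3 := by
  rw [abs_bet_ratio, mul_pow, mul_assoc]
  refine mul_le_mul_of_nonneg_left ?_ (by positivity)
  have hj : (0 : ℝ) ≤ j := by positivity
  rw [div_pow, div_mul_eq_mul_div, div_le_iff₀ (by positivity)]
  have key : (2 * (j : ℝ) + 1) * (j + 5 / 2) ^ 3 * 8 ≤ (2 * j + 4) ^ 4 := by
    nlinarith [mul_nonneg hj hj, mul_nonneg (mul_nonneg hj hj) hj]
  have e1 : (2 * (j : ℝ) + 1) ^ 4 * ((j + 5 / 2) * (j + 3 / 2)) ^ 3 =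
      ((2 * (j : ℝ) + 1) * (j + 5 / 2) ^ 3 * 8) * (((j : ℝ) + 3 / 2) * (j + 1 / 2)) ^ 3 := by
    have : (2 * (j : ℝ) + 1) ^ 3 = 8 * (j + 1 / 2) ^ 3 := by ring
    calc (2 * (j : ℝ) + 1) ^ 4 * ((j + 5 / 2) * (j + 3 / 2)) ^ 3
        = (2 * (j : ℝ) + 1) * (2 * (j : ℝ) + 1) ^ 3 * ((j + 5 / 2) * (j + 3 / 2)) ^ 3 := by ring
      _ = _ := by rw [this]; ring
  rw [e1, mul_comm ((((j : ℝ) + 3 / 2) * (j + 1 / 2)) ^ 3) ((2 * (j : ℝ) + 4) ^ 4)]
  exact mul_le_mul_of_nonneg_right key (by positivity)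

theorem bet_bound {n0 j : ℕ} (h : n0 ≤ j) :
    |bet (j + 1)| ^ 4 * (((j : ℝ) + 3 / 2) * (j + 1 / 2)) ^ 3 ≤
      |bet (n0 + 1)| ^ 4 * (((n0 : ℝ) + 3 / 2) * (n0 + 1 / 2)) ^ 3 := by
  induction j, h using Nat.le_induction with
  | base => exact le_rfl
  | succ j hj ih =>
    refine le_trans (le_of_eq ?_) ((bet_mono j).trans ih)
    push_cast
    congr 3 <;> ring

theorem young (x r : ℝ) (hx : 0 ≤ x) (hr : 0 ≤ r) : 4 * r ^ 3 * x ≤ x ^ 4 + 3 * r ^ 4 := by
  nlinarith [mul_nonneg (sq_nonneg (x - r)) (by positivity : 0 ≤ x ^ 2 + 2 * x * r + 3 * r ^ 2)]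

theorem norm_tc_even (l1 l2 : ℝ) (j : ℕ) :
    ‖tc l1 l2 (2 * j)‖ ^ 2 = (l1 ^ 2 + l2 ^ 2) * bet j ^ 2 := by
  unfold tc
  rw [if_pos (by omega), show 2 * j / 2 = j by omega, ← Complex.normSq_eq_norm_sq,
    Complex.normSq_mul, Complex.normSq_neg, Complex.normSq_add_mul_I, Complex.normSq_ofReal]
  ring

theorem norm_tc_odd (l1 l2 : ℝ) {j : ℕ} (hj : 1 ≤ j) :
    ‖tc l1 l2 (2 * j + 1)‖ ^ 2 = (l1 ^ 2 + l2 ^ 2) * bet (j + 1) ^ 2 := by
  unfold tc
  rw [if_neg (by omega), if_neg (by omega), show (2 * j + 1 + 1) / 2 = j + 1 by omega, add_zero,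
    ← Complex.normSq_eq_norm_sq, Complex.normSq_mul, Complex.normSq_ofReal,
    show (l1 : ℂ) - l2 * I = (l1 : ℂ) + ((-l2 : ℝ) : ℂ) * I by push_cast; ring,
    Complex.normSq_add_mul_I]
  ring

/-- lower bound for one quartic term of the tail -/
theorem tail_term {l1 l2 Cp : ℝ} {n0 j : ℕ} (hj : n0 ≤ j) (hC : 0 ≤ Cp)
    (hcond : |bet (n0 + 1)| ^ 4 * (l1 ^ 2 + l2 ^ 2) ^ 2 *
      (((n0 : ℝ) + 3 / 2) * (n0 + 1 / 2)) ^ 3 ≤ 256 * Cp ^ 3) {t m : ℂ}
    (ht : ‖t‖ ^ 2 = (l1 ^ 2 + l2 ^ 2) * bet (j + 1) ^ 2) :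
    (t * m).re - 3 * (Cp / (((j : ℝ) + 3 / 2) * (j + 1 / 2))) ≤ ‖m‖ ^ 4 := by
  set q : ℝ := Cp / (((j : ℝ) + 3 / 2) * (j + 1 / 2)) with hq
  have hden : (0 : ℝ) < ((j : ℝ) + 3 / 2) * (j + 1 / 2) := by positivity
  have hq0 : 0 ≤ q := by positivity
  set r : ℝ := Real.sqrt (Real.sqrt q) with hr
  have hr0 : 0 ≤ r := Real.sqrt_nonneg _
  have hr4 : r ^ 4 = q := by
    rw [hr, show (4 : ℕ) = 2 * 2 by norm_num, pow_mul, Real.sq_sqrt (Real.sqrt_nonneg _),
      Real.sq_sqrt hq0]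
  have h1 : (‖t‖ / 4) ^ 4 ≤ (r ^ 3) ^ 4 := by
    have h2 : (r ^ 3) ^ 4 = q ^ 3 := by
      rw [← hr4]
      ring
    have h3 : (‖t‖ / 4) ^ 4 = (l1 ^ 2 + l2 ^ 2) ^ 2 * |bet (j + 1)| ^ 4 / 256 := by
      have : |bet (j + 1)| ^ 4 = (bet (j + 1) ^ 2) ^ 2 := by
        rw [← sq_abs (bet (j + 1))]
        ring
      rw [this]
      calc (‖t‖ / 4) ^ 4 = (‖t‖ ^ 2) ^ 2 / 256 := by ring
        _ = _ := by rw [ht]; ring
    rw [h2, h3, hq, div_pow, le_div_iff₀ (by positivity)]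
    have h4 := bet_bound hj
    have h5 := mul_le_mul_of_nonneg_left h4 (sq_nonneg (l1 ^ 2 + l2 ^ 2))
    nlinarith [h5, hcond]
  have h2 : ‖t‖ / 4 ≤ r ^ 3 := by
    refine le_of_pow_le_pow_left₀ (by norm_num : (4 : ℕ) ≠ 0) (by positivity) h1
  have h3 : (t * m).re ≤ ‖t‖ * ‖m‖ := by
    rw [← norm_mul]
    exact Complex.re_le_norm _
  have h4 := young ‖m‖ r (norm_nonneg _) hr0
  rw [hr4] at h4
  have h5 : ‖t‖ * ‖m‖ ≤ 4 * r ^ 3 * ‖m‖ :=
    mul_le_mul_of_nonneg_right (by linarith) (norm_nonneg _)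
  linarith

theorem tail_telescope (n0 d : ℕ) (Cp : ℝ) :
    ∑ j ∈ range d, Cp / ((((n0 + j : ℕ) : ℝ) + 3 / 2) * (((n0 + j : ℕ) : ℝ) + 1 / 2)) =
      Cp / (n0 + 1 / 2) - Cp / (n0 + d + 1 / 2) := by
  induction d with
  | zero => simp
  | succ d ih =>
    rw [sum_range_succ, ih]
    push_cast
    have h1 : (n0 : ℝ) + d + 1 / 2 ≠ 0 := by positivity
    have h2 : (n0 : ℝ) + d + 3 / 2 ≠ 0 := by positivity
    have h3 : (n0 : ℝ) + (d + 1) + 1 / 2 = n0 + d + 3 / 2 := by ring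
    rw [h3]
    field_simp
    ring

/-- **The tail inequality.** -/
theorem Good.tail {M : ℝ} {m : ℕ → ℂ} (h : Good M m) {n0 : ℕ} (hn0 : 1 ≤ n0) {l1 l2 Ct : ℝ}
    (hCt : 0 ≤ Ct)
    (hcond : 27 * |bet (n0 + 1)| ^ 4 * (l1 ^ 2 + l2 ^ 2) ^ 2 * ((n0 : ℝ) + 3 / 2) ^ 3 ≤
      32 * Ct ^ 3) :
    1 / 2 + ∑ k ∈ range (2 * n0), ‖m (k + 1)‖ ^ 4 -
      ∑ k ∈ range (2 * n0 + 1), (tc l1 l2 k * m k).re - Ct ≤ M := by
  set Cp : ℝ := Ct * (n0 + 1 / 2) / 6 with hCp
  have hCp0 : 0 ≤ Cp := by positivity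
  have hcond' : |bet (n0 + 1)| ^ 4 * (l1 ^ 2 + l2 ^ 2) ^ 2 *
      (((n0 : ℝ) + 3 / 2) * (n0 + 1 / 2)) ^ 3 ≤ 256 * Cp ^ 3 := by
    rw [hCp]
    have := mul_le_mul_of_nonneg_right hcond (by positivity : (0 : ℝ) ≤ ((n0 : ℝ) + 1 / 2) ^ 3)
    nlinarith [this]
  have key : ∀ d : ℕ, 1 / 2 + ∑ k ∈ range (2 * n0), ‖m (k + 1)‖ ^ 4 -
      ∑ k ∈ range (2 * n0 + 1), (tc l1 l2 k * m k).re - Ct ≤
      M + 2 * (|l1| + |l2|) * rho (n0 + d) := by
    intro d
    have h1 := h.l2 (2 * (n0 + d))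
    have h2 := h.tc_ge l1 l2 (n := n0 + d) (by omega)
    have h3 : ∀ d : ℕ, ∑ k ∈ range (2 * n0), ‖m (k + 1)‖ ^ 4 +
        (∑ k ∈ range (2 * (n0 + d) + 1), (tc l1 l2 k * m k).re -
          ∑ k ∈ range (2 * n0 + 1), (tc l1 l2 k * m k).re) -
        6 * ∑ j ∈ range d, Cp / ((((n0 + j : ℕ) : ℝ) + 3 / 2) * (((n0 + j : ℕ) : ℝ) + 1 / 2)) ≤
        ∑ k ∈ range (2 * (n0 + d)), ‖m (k + 1)‖ ^ 4 := by
      intro d
      induction d with
      | zero => simp
      | succ d ih =>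
        have e1 : 2 * (n0 + (d + 1)) = 2 * (n0 + d) + 1 + 1 := by ring
        rw [e1, sum_range_succ _ (2 * (n0 + d) + 1), sum_range_succ _ (2 * (n0 + d)),
          sum_range_succ _ d, sum_range_succ _ (2 * (n0 + d) + 1 + 1),
          sum_range_succ _ (2 * (n0 + d) + 1)]
        have a1 := tail_term (j := n0 + d) (by omega) hCp0 hcond'
          (m := m (2 * (n0 + d) + 1)) (norm_tc_odd l1 l2 (j := n0 + d) (by omega))
        have a2 := tail_term (j := n0 + d) (by omega) hCp0 hcond'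
          (m := m (2 * (n0 + d) + 1 + 1)) (norm_tc_even l1 l2 (n0 + d + 1))
        have e2 : 2 * (n0 + d + 1) = 2 * (n0 + d) + 1 + 1 := by ring
        rw [e2] at a2
        linarith
    have h4 := h3 d
    rw [tail_telescope] at h4
    have h5 : 6 * (Cp / (n0 + 1 / 2)) = Ct := by
      rw [hCp]
      have : (n0 : ℝ) + 1 / 2 ≠ 0 := by positivity
      field_simp
    have h6 : 0 ≤ Cp / (n0 + d + 1 / 2) := by positivity
    linarith
  have hlim : Tendsto (fun d : ℕ => M + 2 * (|l1| + |l2|) * rho (n0 + d)) atTop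
      (𝓝 (M + 2 * (|l1| + |l2|) * 0)) := by
    refine tendsto_const_nhds.add (tendsto_const_nhds.mul ?_)
    have := rho_tendsto.comp (tendsto_add_atTop_nat n0)
    refine this.congr fun d => ?_
    simp [add_comm]
  rw [mul_zero, add_zero] at hlim
  exact ge_of_tendsto' hlim key

end Run7.h583
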