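import Mathlib
import Pool.Agent.Run7.h583.Chk
import Pool.Agent.Run7.h583.Tail

/-! Correctness of the digit arithmetic of the checker. -/

set_option autoImplicit false

open Finset Polynomial

namespace Run7.h583

theorem sumr_eq (f : ℕ → ℕ) (n : ℕ) : sumr f n = ∑ k ∈ range n, f k := by
  induction n with
  | zero => rfl
  | succ n ih =>
    rw [sum_range_succ, ← ih]
    rfl

theorem allr_spec {f : ℕ → Bool} {n : ℕ} (h : allr f n = true) : ∀ k < n, f k = true := by
  induction n with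
  | zero => intro k hk; omega
  | succ n ih =>
    have h' : (allr f n && f n) = true := h
    rw [Bool.and_eq_true] at h'
    intro k hk
    rcases Nat.lt_succ_iff_lt_or_eq.1 hk with h1 | h1
    · exact ih h'.1 k h1
    · rw [h1]
      exact h'.2

theorem dg_eq (W X j : ℕ) : dg W X j = X / W ^ j % W := rfl

theorem BB_eq : BB = 2 ^ 64 := by norm_num [BB]
theorem HB_eq : HB = 2 ^ 63 := by norm_num [HB]

theorem rep_eq (n : ℕ) : rep n = ∑ j ∈ range n, BB ^ j := by
  have h : rep n = (BB ^ n - 1) / (BB - 1) := rfl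
  rw [h, Nat.geomSum_eq (by norm_num [BB])]

theorem subNatNat_eq (a b : ℕ) : Int.subNatNat a b = (a : ℤ) - b := by
  exact Int.subNatNat_eq_coe

/-- the signed coefficients -/
def sc (W H X : ℕ) (j : ℕ) : ℤ := (dg W X j : ℤ) - H

/-- polynomial with given coefficients -/
noncomputable def pf (a : ℕ → ℤ) (n : ℕ) : ℤ[X] := ∑ j ∈ range n, C (a j) * X ^ j
/-- reversed polynomial -/
noncomputable def pb (a : ℕ → ℤ) (n : ℕ) : ℤ[X] := ∑ j ∈ range n, C (a j) * X ^ (n - 1 - j)

theorem svf_eq (W H X n : ℕ) : svf W H X n = (pf (sc W H X) n).eval (BB : ℤ) := by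
  unfold svf pf
  rw [subNatNat_eq, eval_finsetSum]
  have h1 : evf W X n = ∑ j ∈ range n, dg W X j * BB ^ j := by
    unfold evf
    rw [sumr_eq]
    rfl
  have h2 : H.mul (rep n) = H * rep n := rfl
  rw [h1, h2, rep_eq]
  push_cast
  rw [mul_sum, ← sum_sub_distrib]
  refine sum_congr rfl fun j _ => ?_
  simp only [eval_mul, eval_C, eval_pow, eval_X, sc]
  ring

theorem svb_eq (W H X n : ℕ) : svb W H X n = (pb (sc W H X) n).eval (BB : ℤ) := by
  unfold svb pb
  rw [subNatNat_eq, eval_finsetSum]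
  have h1 : evb W X n = ∑ j ∈ range n, dg W X j * BB ^ (n - 1 - j) := by
    unfold evb
    rw [sumr_eq]
    rfl
  have h2 : H.mul (rep n) = H * rep n := rfl
  have h3 : ∑ j ∈ range n, BB ^ j = ∑ j ∈ range n, BB ^ (n - 1 - j) :=
    (sum_range_reflect (fun j => BB ^ j) n).symm
  rw [h1, h2, rep_eq, h3]
  push_cast
  rw [mul_sum, ← sum_sub_distrib]
  refine sum_congr rfl fun j _ => ?_
  simp only [eval_mul, eval_C, eval_pow, eval_X, sc]
  ring

/-- the autocorrelation polynomial -/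
noncomputable def corP (r s : ℕ → ℤ) (n : ℕ) : ℤ[X] :=
  (pf r n + pf s n) * pb r n + (pf s n - pf r n) * pb s n

theorem cor_eq (W H r s n : ℕ) :
    cor W H r s n = (corP (sc W H r) (sc W H s) n).eval (BB : ℤ) := by
  unfold cor corP
  simp only [eval_add, eval_mul, eval_sub, ← svf_eq, ← svb_eq]
  rfl

/-- `P` is dominated by a polynomial with nonnegative coefficients whose value at `1` is `≤ c` -/
def Dom (P : ℤ[X]) (c : ℤ) : Prop :=
  ∃ Q : ℤ[X], (∀ i, |P.coeff i| ≤ Q.coeff i) ∧ Q.eval 1 ≤ c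

theorem Dom.coeff_le {P : ℤ[X]} {c : ℤ} (h : Dom P c) (i : ℕ) : |P.coeff i| ≤ c := by
  obtain ⟨Q, h1, h2⟩ := h
  have h0 : ∀ i, 0 ≤ Q.coeff i := fun i => (abs_nonneg _).trans (h1 i)
  refine (h1 i).trans (le_trans ?_ h2)
  rw [eval_eq_sum_range]
  simp only [one_pow, mul_one]
  by_cases hi : i ∈ range (Q.natDegree + 1)
  · exact single_le_sum (fun j _ => h0 j) hi
  · rw [mem_range, not_lt] at hi
    rw [coeff_eq_zero_of_natDegree_lt (by omega)]
    exact sum_nonneg fun j _ => h0 j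

theorem Dom.add {P Q : ℤ[X]} {c d : ℤ} (hP : Dom P c) (hQ : Dom Q d) : Dom (P + Q) (c + d) := by
  obtain ⟨P', h1, h2⟩ := hP
  obtain ⟨Q', h3, h4⟩ := hQ
  refine ⟨P' + Q', fun i => ?_, by rw [eval_add]; linarith⟩
  rw [coeff_add, coeff_add]
  exact (abs_add_le _ _).trans (add_le_add (h1 i) (h3 i))

theorem Dom.sub {P Q : ℤ[X]} {c d : ℤ} (hP : Dom P c) (hQ : Dom Q d) : Dom (P - Q) (c + d) := by
  obtain ⟨P', h1, h2⟩ := hP
  obtain ⟨Q', h3, h4⟩ := hQ
  refine ⟨P' + Q', fun i => ?_, by rw [eval_add]; linarith⟩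
  rw [coeff_sub, coeff_add]
  exact (abs_sub _ _).trans (add_le_add (h1 i) (h3 i))

theorem Dom.mul {P Q : ℤ[X]} {c d : ℤ} (hP : Dom P c) (hQ : Dom Q d) : Dom (P * Q) (c * d) := by
  obtain ⟨P', h1, h2⟩ := hP
  obtain ⟨Q', h3, h4⟩ := hQ
  have p0 : ∀ i, 0 ≤ P'.coeff i := fun i => (abs_nonneg _).trans (h1 i)
  have q0 : ∀ i, 0 ≤ Q'.coeff i := fun i => (abs_nonneg _).trans (h3 i)
  have pe : 0 ≤ P'.eval 1 := by
    rw [eval_eq_sum_range]
    exact sum_nonneg fun i _ => by simpa using p0 i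
  have qe : 0 ≤ Q'.eval 1 := by
    rw [eval_eq_sum_range]
    exact sum_nonneg fun i _ => by simpa using q0 i
  refine ⟨P' * Q', fun i => ?_, by rw [eval_mul]; exact mul_le_mul h2 h4 qe (pe.trans h2)⟩
  rw [coeff_mul, coeff_mul]
  refine (abs_sum_le_sum_abs _ _).trans (sum_le_sum fun x _ => ?_)
  rw [abs_mul]
  exact mul_le_mul (h1 _) (h3 _) (abs_nonneg _) (p0 _)

theorem Dom.mono {P : ℤ[X]} {c d : ℤ} (hP : Dom P c) (h : c ≤ d) : Dom P d := by
  obtain ⟨P', h1, h2⟩ := hP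
  exact ⟨P', h1, h2.trans h⟩

theorem dom_mono (a : ℤ) (k : ℕ) {A : ℤ} (h : |a| ≤ A) : Dom (C a * X ^ k) A := by
  refine ⟨C A * X ^ k, fun i => ?_, by simp⟩
  rw [coeff_C_mul, coeff_C_mul, coeff_X_pow]
  split_ifs
  · simpa using h
  · simp

theorem dom_sum {f : ℕ → ℤ[X]} {A : ℤ} : ∀ n : ℕ, (∀ j < n, Dom (f j) A) →
    Dom (∑ j ∈ range n, f j) (n * A)
  | 0, _ => ⟨0, by simp, by simp⟩
  | n + 1, h => by
    rw [sum_range_succ]
    have := (dom_sum n fun j hj => h j (by omega)).add (h n (by omega))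
    refine this.mono (le_of_eq ?_)
    push_cast
    ring

theorem dom_pf {a : ℕ → ℤ} {A : ℤ} (n : ℕ) (h : ∀ j < n, |a j| ≤ A) : Dom (pf a n) (n * A) :=
  dom_sum n fun j hj => dom_mono _ _ (h j hj)

theorem dom_pb {a : ℕ → ℤ} {A : ℤ} (n : ℕ) (h : ∀ j < n, |a j| ≤ A) : Dom (pb a n) (n * A) :=
  dom_sum n fun j hj => dom_mono _ _ (h j hj)

theorem dom_corP {r s : ℕ → ℤ} {A : ℤ} (n : ℕ) (hr : ∀ j < n, |r j| ≤ A) (hs : ∀ j < n, |s j| ≤ A) :
    Dom (corP r s n) (4 * (n * A) ^ 2) := by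
  unfold corP
  refine ((((dom_pf n hr).add (dom_pf n hs)).mul (dom_pb n hr)).add
    (((dom_pf n hs).sub (dom_pf n hr)).mul (dom_pb n hs))).mono (le_of_eq ?_)
  ring

theorem abs_sc_le {W H : ℕ} (hW : W = 2 * H) (hH : 0 < H) (X j : ℕ) : |sc W H X j| ≤ H := by
  unfold sc
  have h1 : dg W X j < W := Nat.mod_lt _ (by omega)
  rw [abs_le]
  constructor <;> omega

theorem natDegree_pf (a : ℕ → ℤ) (n : ℕ) : (pf a n).natDegree ≤ n - 1 := by
  unfold pf
  refine natDegree_sum_le_of_forall_le _ _ fun j hj => ?_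
  refine (natDegree_C_mul_X_pow_le _ _).trans ?_
  rw [mem_range] at hj
  omega

theorem natDegree_pb (a : ℕ → ℤ) (n : ℕ) : (pb a n).natDegree ≤ n - 1 := by
  unfold pb
  refine natDegree_sum_le_of_forall_le _ _ fun j hj => ?_
  refine (natDegree_C_mul_X_pow_le _ _).trans ?_
  omega

theorem natDegree_corP (r s : ℕ → ℤ) (n : ℕ) : (corP r s n).natDegree ≤ 2 * (n - 1) := by
  unfold corP
  refine natDegree_add_le_of_degree_le ?_ ?_
  · refine natDegree_mul_le.trans ?_
    have h1 := natDegree_add_le_of_degree_le (natDegree_pf r n) (natDegree_pf s n)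
    have h2 := natDegree_pb r n
    omega
  · refine natDegree_mul_le.trans ?_
    have h1 := natDegree_sub_le_of_le (natDegree_pf s n) (natDegree_pf r n)
    have h2 := natDegree_pb s n
    simp only [max_self] at h1
    omega

theorem digit_sum (B : ℕ) (hB : 0 < B) : ∀ (m N : ℕ) (f : ℕ → ℕ), (∀ i, f i < B) → m < N →
    (∑ i ∈ Finset.range N, f i * B ^ i) / B ^ m % B = f m
  | m, 0, f, _, h => absurd h (Nat.not_lt_zero _)
  | 0, N + 1, f, hf, _ => by
    rw [Finset.sum_range_succ', pow_zero, mul_one, Nat.div_one]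
    have : ∑ k ∈ Finset.range N, f (k + 1) * B ^ (k + 1) =
        B * ∑ k ∈ Finset.range N, f (k + 1) * B ^ k := by
      rw [Finset.mul_sum]
      exact Finset.sum_congr rfl fun i _ => by ring
    rw [this, Nat.mul_add_mod, Nat.mod_eq_of_lt (hf 0)]
  | m + 1, N + 1, f, hf, h => by
    rw [Finset.sum_range_succ', pow_zero, mul_one]
    have : ∑ k ∈ Finset.range N, f (k + 1) * B ^ (k + 1) =
        B * ∑ k ∈ Finset.range N, f (k + 1) * B ^ k := by
      rw [Finset.mul_sum]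
      exact Finset.sum_congr rfl fun i _ => by ring
    rw [this, pow_succ', ← Nat.div_div_eq_div_mul, Nat.mul_add_div hB, Nat.div_eq_of_lt (hf 0),
      add_zero]
    exact digit_sum B hB m N (fun i => f (i + 1)) (fun i => hf _) (by omega)

/-- the digits of the offset number are the coefficients -/
theorem sg_off {P : ℤ[X]} {N : ℕ} (hdeg : P.natDegree < N) (hc : ∀ i, |P.coeff i| < HB)
    {Z : ℤ} (hZ : Z = P.eval (BB : ℤ)) {j : ℕ} (hj : j < N) : sg (off N Z) j = P.coeff j := by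
  have h1 : off N Z = ∑ i ∈ range N, (P.coeff i + HB).toNat * BB ^ i := by
    have h2 : off N Z = (Z + ((HB * rep N : ℕ) : ℤ)).toNat := rfl
    rw [h2, hZ, rep_eq, eval_eq_sum_range' hdeg]
    have h3 : ∑ i ∈ range N, P.coeff i * (BB : ℤ) ^ i + ((HB * ∑ j ∈ range N, BB ^ j : ℕ) : ℤ) =
        ((∑ i ∈ range N, (P.coeff i + HB).toNat * BB ^ i : ℕ) : ℤ) := by
      push_cast
      rw [mul_sum, ← sum_add_distrib]
      refine sum_congr rfl fun i _ => ?_
      have := hc i
      rw [abs_lt] at this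
      rw [Int.toNat_of_nonneg (by linarith)]
      ring
    rw [h3, Int.toNat_natCast]
  unfold sg
  rw [subNatNat_eq, dg_eq, h1, digit_sum BB (by norm_num [BB]) j N _ _ hj]
  · have := hc j
    rw [abs_lt] at this
    rw [Int.toNat_of_nonneg (by linarith)]
    ring
  · intro i
    have := hc i
    rw [abs_lt] at this
    have h2 : ((P.coeff i + HB).toNat : ℤ) < BB := by
      rw [Int.toNat_of_nonneg (by linarith)]
      have : (BB : ℤ) = HB + HB := by norm_num [BB, HB]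
      linarith
    exact_mod_cast h2

end Run7.h583
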