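import Pool.Agent.Run7.h583.Core

/-! The moment inequalities for the `L^p` norm of the autoconvolution. -/

set_option autoImplicit false

open MeasureTheory Set Complex Finset
open scoped ENNReal Convolution Real

namespace Run7.h583

section

variable {f : ℝ → ℝ} (hf : IsUnitDensity f)

include hf

theorem integral_autoconv : ∫ x, autoconv f x = 1 := by
  have h4 := integral_convolution (ContinuousLinearMap.mul ℝ ℝ) hf.1 hf.1
    (μ := volume) (ν := volume)
  rw [ContinuousLinearMap.mul_apply', hf.2.2.2] at h4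
  rw [mul_one] at h4
  exact h4

/-- data for finite `p`: the integral `A` of `g ^ p` -/
theorem lp_data {p : ℝ≥0∞} (hp : 2 ≤ p) (htop : p ≠ ∞) (hN : eLpNorm (autoconv f) p volume ≠ ∞) :
    Integrable (fun x => autoconv f x ^ p.toReal) ∧ 0 < ∫ x, autoconv f x ^ p.toReal ∧
      (eLpNorm (autoconv f) p volume).toReal =
        (∫ x, autoconv f x ^ p.toReal) ^ (1 / p.toReal) := by
  have hp0 : p ≠ 0 := by
    intro h
    rw [h] at hp
    simp at hp
  have hpr : 2 ≤ p.toReal := by
    have := ENNReal.toReal_mono htop hp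
    simpa using this
  have hmeas : AEStronglyMeasurable (autoconv f) volume := (integrable_autoconv hf).aestronglyMeasurable
  have hmem : MemLp (autoconv f) p volume := ⟨hmeas, lt_top_iff_ne_top.2 hN⟩
  have hint : Integrable (fun x => autoconv f x ^ p.toReal) := by
    have := hmem.integrable_norm_rpow hp0 htop
    refine this.congr (Filter.Eventually.of_forall fun x => ?_)
    simp only [Real.norm_of_nonneg (autoconv_nonneg hf x)]
  have heq : (eLpNorm (autoconv f) p volume).toReal =
      (∫ x, autoconv f x ^ p.toReal) ^ (1 / p.toReal) := by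
    rw [hmem.eLpNorm_eq_integral_rpow_norm hp0 htop, ENNReal.toReal_ofReal (by positivity)]
    rw [one_div]
    congr 1
    refine integral_congr_ae (Filter.Eventually.of_forall fun x => ?_)
    simp only [Real.norm_of_nonneg (autoconv_nonneg hf x)]
  refine ⟨hint, ?_, heq⟩
  have h0 : 0 ≤ ∫ x, autoconv f x ^ p.toReal :=
    integral_nonneg fun x => Real.rpow_nonneg (autoconv_nonneg hf x) _
  rcases h0.lt_or_eq with h | h
  · exact h
  · exfalso
    have h1 : (fun x => autoconv f x ^ p.toReal) =ᵐ[volume] 0 :=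
      (integral_eq_zero_iff_of_nonneg (fun x => Real.rpow_nonneg (autoconv_nonneg hf x) _) hint).1
        h.symm
    have h2 : autoconv f =ᵐ[volume] 0 := by
      filter_upwards [h1] with x hx
      simp only [Pi.zero_apply] at hx ⊢
      exact (Real.rpow_eq_zero (autoconv_nonneg hf x) (by linarith)).1 hx
    have h3 := integral_autoconv hf
    rw [integral_congr_ae h2] at h3
    simp at h3

/-- Hölder's inequality with three factors, for a kernel `T` -/
theorem holder3 {P : ℝ} (hP : 2 ≤ P) (hint : Integrable (fun x => autoconv f x ^ P))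
    {A : ℝ} (hA : A = ∫ x, autoconv f x ^ P) (hA0 : 0 < A) {T : ℝ → ℝ} (hT : Continuous T)
    (hT0 : ∀ x, 0 ≤ T x) {B C : ℝ} (hB : B = ∫ x in (0 : ℝ)..2, T x)
    (hC : C = ∫ x in (0 : ℝ)..2, T x ^ 2) (hB0 : 0 < B) (hC0 : 0 < C)
    (hgT : Integrable (fun x => autoconv f x * T x)) :
    ∫ x, autoconv f x * T x ≤ A ^ (1 / P) * B ^ ((P - 2) / P) * C ^ (1 / P) := by
  have hP0 : 0 < P := by linarith
  have h1 : ∫ x, autoconv f x * T x = ∫ x in Icc (0 : ℝ) 2, autoconv f x * T x := by
    symm
    apply setIntegral_eq_integral_of_forall_compl_eq_zero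
    intro x hx
    rw [autoconv_eq_zero hf hx, zero_mul]
  set Q := A ^ (1 / P) * B ^ ((P - 2) / P) * C ^ (1 / P) with hQ
  have hQ0 : 0 < Q := by positivity
  have hpt : ∀ x, autoconv f x * T x ≤ Q * ((1 / P) * (autoconv f x ^ P / A) +
      ((P - 2) / P) * (T x / B) + (1 / P) * (T x ^ 2 / C)) := by
    intro x
    have hg := autoconv_nonneg hf x
    have h2 := Real.geom_mean_le_arith_mean3_weighted (w₁ := 1 / P) (w₂ := (P - 2) / P)
      (w₃ := 1 / P) (p₁ := autoconv f x ^ P / A) (p₂ := T x / B) (p₃ := T x ^ 2 / C)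
      (by positivity) (div_nonneg (by linarith) hP0.le) (by positivity)
      (div_nonneg (Real.rpow_nonneg hg _) hA0.le) (div_nonneg (hT0 x) hB0.le) (by positivity)
      (by field_simp; ring)
    have h3 : (autoconv f x ^ P / A) ^ (1 / P) * (T x / B) ^ ((P - 2) / P) *
        (T x ^ 2 / C) ^ (1 / P) = autoconv f x * T x / Q := by
      rw [Real.div_rpow (Real.rpow_nonneg hg _) hA0.le, Real.div_rpow (hT0 x) hB0.le,
        Real.div_rpow (sq_nonneg _) hC0.le, ← Real.rpow_mul hg, mul_one_div_cancel hP0.ne',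
        Real.rpow_one]
      have h4 : (T x ^ 2) ^ (1 / P) = T x ^ (2 / P) := by
        rw [← Real.rpow_natCast, ← Real.rpow_mul (hT0 x)]
        congr 1
        push_cast
        ring
      have h5 : T x ^ ((P - 2) / P) * T x ^ (2 / P) = T x := by
        rcases (hT0 x).lt_or_eq with h | h
        · rw [← Real.rpow_add h, ← add_div, sub_add_cancel, div_self hP0.ne', Real.rpow_one]
        · rw [← h, Real.zero_rpow (by positivity : (2 : ℝ) / P ≠ 0), mul_zero]
      rw [h4, hQ]
      rw [div_mul_div_comm, div_mul_div_comm]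
      congr 1
      rw [mul_assoc, h5]
    rw [h3, div_le_iff₀ hQ0] at h2
    linarith
  have hI1 : IntegrableOn (fun x => Q * ((1 / P) * (autoconv f x ^ P / A))) (Icc (0 : ℝ) 2) :=
    (((hint.div_const A).const_mul _).const_mul _).integrableOn
  have hI2 : IntegrableOn (fun x => Q * (((P - 2) / P) * (T x / B))) (Icc (0 : ℝ) 2) :=
    ((((hT.div_const B).const_mul _).const_mul _).continuousOn.integrableOn_compact isCompact_Icc)
  have hI3 : IntegrableOn (fun x => Q * ((1 / P) * (T x ^ 2 / C))) (Icc (0 : ℝ) 2) :=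
    (((((hT.pow 2).div_const C).const_mul _).const_mul _).continuousOn.integrableOn_compact
      isCompact_Icc)
  have h6 : ∫ x in Icc (0 : ℝ) 2, autoconv f x * T x ≤
      ∫ x in Icc (0 : ℝ) 2, (Q * ((1 / P) * (autoconv f x ^ P / A)) +
        Q * (((P - 2) / P) * (T x / B)) + Q * ((1 / P) * (T x ^ 2 / C))) := by
    refine setIntegral_mono hgT.integrableOn ((hI1.add hI2).add hI3) fun x => ?_
    have := hpt x
    linarith
  have h7 : ∫ x in Icc (0 : ℝ) 2, (Q * ((1 / P) * (autoconv f x ^ P / A)) +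
        Q * (((P - 2) / P) * (T x / B)) + Q * ((1 / P) * (T x ^ 2 / C))) =
      Q * ((1 / P) * ((∫ x in Icc (0 : ℝ) 2, autoconv f x ^ P) / A)) +
        Q * (((P - 2) / P) * (B / B)) + Q * ((1 / P) * (C / C)) := by
    have a1 := integral_add (hI1.add hI2) hI3
    have a2 := integral_add hI1 hI2
    simp only [Pi.add_apply] at a1
    rw [a1, a2, integral_const_mul, integral_const_mul, integral_const_mul, integral_const_mul,
      integral_const_mul, integral_const_mul, integral_div, integral_div, integral_div]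
    have hB' : ∫ x in Icc (0 : ℝ) 2, T x = B := by
      rw [hB, integral_Icc_eq_integral_Ioc, ← intervalIntegral.integral_of_le (by norm_num)]
    have hC' : ∫ x in Icc (0 : ℝ) 2, T x ^ 2 = C := by
      rw [hC, integral_Icc_eq_integral_Ioc, ← intervalIntegral.integral_of_le (by norm_num)]
    rw [hB', hC']
  have h8 : ∫ x in Icc (0 : ℝ) 2, autoconv f x ^ P ≤ A := by
    rw [hA]
    exact setIntegral_le_integral hint
      (Filter.Eventually.of_forall fun x => Real.rpow_nonneg (autoconv_nonneg hf x) _)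
  have h9 : (∫ x in Icc (0 : ℝ) 2, autoconv f x ^ P) / A ≤ 1 := (div_le_one hA0).2 h8
  rw [h1]
  refine h6.trans ?_
  rw [h7, div_self hB0.ne', div_self hC0.ne']
  have h10 : Q * ((1 / P) * ((∫ x in Icc (0 : ℝ) 2, autoconv f x ^ P) / A)) ≤ Q * ((1 / P) * 1) := by
    gcongr
  have h11 : Q * ((1 / P) * 1) + Q * (((P - 2) / P) * 1) + Q * ((1 / P) * 1) = Q := by
    field_simp
    ring
  linarith

/-- the mean square of the autoconvolution -/
theorem sq_bound {P : ℝ} (hP : 2 ≤ P) (hint : Integrable (fun x => autoconv f x ^ P))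
    {A : ℝ} (hA : A = ∫ x, autoconv f x ^ P) (hA0 : 0 < A) :
    Integrable (fun x => autoconv f x ^ 2) ∧ ∫ x, autoconv f x ^ 2 ≤ A ^ (1 / (P - 1)) := by
  have hP1 : 0 < P - 1 := by linarith
  set Q := A ^ (1 / (P - 1)) with hQ
  have hQ0 : 0 < Q := by positivity
  have hg1 : Integrable (autoconv f) := integrable_autoconv hf
  have hpt : ∀ x, autoconv f x ^ 2 ≤ Q * ((1 / (P - 1)) * (autoconv f x ^ P / A) +
      ((P - 2) / (P - 1)) * autoconv f x) := by
    intro x
    have hg := autoconv_nonneg hf x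
    have h2 := Real.geom_mean_le_arith_mean2_weighted (w₁ := 1 / (P - 1)) (w₂ := (P - 2) / (P - 1))
      (p₁ := autoconv f x ^ P / A) (p₂ := autoconv f x)
      (by positivity) (div_nonneg (by linarith) hP1.le)
      (div_nonneg (Real.rpow_nonneg hg _) hA0.le) hg
      (by field_simp; ring)
    have h3 : (autoconv f x ^ P / A) ^ (1 / (P - 1)) * autoconv f x ^ ((P - 2) / (P - 1)) =
        autoconv f x ^ 2 / Q := by
      rw [Real.div_rpow (Real.rpow_nonneg hg _) hA0.le, ← Real.rpow_mul hg]
      have h5 : autoconv f x ^ (P * (1 / (P - 1))) * autoconv f x ^ ((P - 2) / (P - 1)) =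
          autoconv f x ^ 2 := by
        rcases hg.lt_or_eq with h | h
        · rw [← Real.rpow_add h, ← Real.rpow_natCast]
          congr 1
          push_cast
          field_simp
          ring
        · rw [← h, Real.zero_rpow (by positivity : P * (1 / (P - 1)) ≠ 0), zero_mul]
          norm_num
      rw [div_mul_eq_mul_div, h5]
    rw [h3, div_le_iff₀ hQ0] at h2
    linarith
  have hI : Integrable (fun x => Q * ((1 / (P - 1)) * (autoconv f x ^ P / A) +
      ((P - 2) / (P - 1)) * autoconv f x)) :=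
    (((hint.div_const A).const_mul _).add (hg1.const_mul _)).const_mul _
  have hI2 : Integrable (fun x => autoconv f x ^ 2) := by
    refine hI.mono' (hg1.aestronglyMeasurable.pow 2) (Filter.Eventually.of_forall fun x => ?_)
    rw [Real.norm_of_nonneg (sq_nonneg _)]
    exact hpt x
  refine ⟨hI2, ?_⟩
  refine (integral_mono hI2 hI hpt).trans (le_of_eq ?_)
  rw [integral_const_mul, integral_add ((hint.div_const A).const_mul _) (hg1.const_mul _),
    integral_const_mul, integral_const_mul, integral_div, ← hA, div_self hA0.ne',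
    integral_autoconv hf]
  field_simp
  ring

/-- Parseval for the lower bound of the mean square -/
theorem l2_sq (hint : Integrable (fun x => autoconv f x ^ 2)) (n : ℕ) :
    1 / 2 + ∑ k ∈ range n, ‖mom f (k + 1)‖ ^ 4 ≤ ∫ x, autoconv f x ^ 2 := by
  set t : ℕ → ℂ := fun k => if k = 0 then 1 / 2 else ((starRingEnd ℂ) (mom f k)) ^ 2 with ht
  set S := ∑ k ∈ range n, ‖mom f (k + 1)‖ ^ 4 with hS
  have e1 : ∑ k ∈ range (n + 1), (t k * (mom f k) ^ 2).re = 1 / 2 + S := by
    rw [Finset.sum_range_succ', add_comm]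
    congr 1
    · simp only [ht, if_true, mom_zero hf]
      norm_num
    · refine Finset.sum_congr rfl fun k _ => ?_
      simp only [ht]
      rw [if_neg (by omega), ← mul_pow, mul_comm, Complex.mul_conj, Complex.normSq_eq_norm_sq]
      norm_cast
      ring
  have e2 : ∫ x in (0 : ℝ)..2, (tp t n (x - 1)) ^ 2 = 1 / 2 + S := by
    rw [int_tp_sq]
    congr 1
    · simp only [ht, if_true]
      norm_num
    · refine Finset.sum_congr rfl fun k _ => ?_
      simp only [ht]
      rw [if_neg (by omega), norm_pow, Complex.norm_conj]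
      ring
  have hI1 : IntegrableOn (fun x => autoconv f x ^ 2) (Icc (0 : ℝ) 2) := hint.integrableOn
  have hI2 : IntegrableOn (fun x => 2 * (autoconv f x * tp t n (x - 1))) (Icc (0 : ℝ) 2) :=
    ((integrable_g_tp hf n t).const_mul 2).integrableOn
  have hI3 : IntegrableOn (fun x => (tp t n (x - 1)) ^ 2) (Icc (0 : ℝ) 2) :=
    ((cont_tp_shift t n).pow 2).continuousOn.integrableOn_compact isCompact_Icc
  have h0 : 0 ≤ ∫ x in Icc (0 : ℝ) 2, (autoconv f x ^ 2 - 2 * (autoconv f x * tp t n (x - 1)) +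
      (tp t n (x - 1)) ^ 2) := by
    apply integral_nonneg
    intro x
    simp only [Pi.zero_apply]
    nlinarith [sq_nonneg (autoconv f x - tp t n (x - 1))]
  have h5 := integral_add (hI1.sub hI2) hI3
  have h6 := integral_sub hI1 hI2
  simp only [Pi.sub_apply] at h5
  rw [h5, h6, integral_const_mul] at h0
  have h1 : ∫ x in Icc (0 : ℝ) 2, autoconv f x * tp t n (x - 1) = 1 / 2 + S := by
    rw [← e1, ← integral_g_tp hf]
    apply setIntegral_eq_integral_of_forall_compl_eq_zero
    intro x hx
    rw [autoconv_eq_zero hf hx, zero_mul]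
  have h2 : ∫ x in Icc (0 : ℝ) 2, autoconv f x ^ 2 = ∫ x, autoconv f x ^ 2 := by
    apply setIntegral_eq_integral_of_forall_compl_eq_zero
    intro x hx
    rw [autoconv_eq_zero hf hx]
    norm_num
  have h3 : ∫ x in Icc (0 : ℝ) 2, (tp t n (x - 1)) ^ 2 = 1 / 2 + S := by
    rw [integral_Icc_eq_integral_Ioc, ← intervalIntegral.integral_of_le (by norm_num), e2]
  rw [h1, h2, h3] at h0
  linarith

/-- the moments satisfy the inequalities with `M = (3 / 2) ^ (1 / p) ‖f * f‖_p` if this norm is at
most `1` -/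
theorem good_lp {p : ℝ≥0∞} (hp : 2 ≤ p) (htop : p ≠ ∞)
    (hN : eLpNorm (autoconv f) p volume ≠ ∞)
    (hN1 : (eLpNorm (autoconv f) p volume).toReal ≤ 1) :
    Good ((eLpNorm (autoconv f) p volume).toReal * (3 / 2) ^ (1 / p.toReal)) (mom f) := by
  obtain ⟨hint, hA0, heq⟩ := lp_data hf hp htop hN
  have hP : 2 ≤ p.toReal := by
    have := ENNReal.toReal_mono htop hp
    simpa using this
  set P := p.toReal with hPd
  set A := ∫ x, autoconv f x ^ P with hA
  set N := (eLpNorm (autoconv f) p volume).toReal with hNd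
  have hP0 : 0 < P := by linarith
  have hN0 : 0 < N := by
    rw [heq]
    positivity
  have hAN : A = N ^ P := by
    rw [heq, ← Real.rpow_mul hA0.le, one_div_mul_cancel hP0.ne', Real.rpow_one]
  have hR : 1 ≤ (3 / 2 : ℝ) ^ (1 / P) := Real.one_le_rpow (by norm_num) (by positivity)
  obtain ⟨hsq, hsq2⟩ := sq_bound hf hP hint hA hA0
  refine ⟨mom_zero hf, mom_bd hf, arc_ineq hf, ?_, ?_⟩
  · intro n t ht hr
    have hB : ∫ x in (0 : ℝ)..2, tp t n (x - 1) = 2 * (t 0).re := int_tp t n
    have hC : ∫ x in (0 : ℝ)..2, (tp t n (x - 1)) ^ 2 =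
        2 * (t 0).re ^ 2 + ∑ k ∈ range n, ‖t (k + 1)‖ ^ 2 := int_tp_sq t n
    have ht0 : 0 ≤ (t 0).re := by
      have : 0 ≤ ∫ x in (0 : ℝ)..2, tp t n (x - 1) :=
        intervalIntegral.integral_nonneg (by norm_num) fun x _ => ht _
      linarith
    rcases ht0.lt_or_eq with h0 | h0
    · rw [← integral_g_tp hf]
      have h1 := holder3 hf hP hint hA hA0 (T := fun x => tp t n (x - 1)) (cont_tp_shift t n)
        (fun x => ht _) hB.symm hC.symm (by linarith)
        (by
          have : 0 ≤ ∑ k ∈ range n, ‖t (k + 1)‖ ^ 2 := Finset.sum_nonneg fun k _ => by positivity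
          have h2 : 0 < 2 * (t 0).re ^ 2 := by positivity
          linarith) (integrable_g_tp hf n t)
      refine h1.trans ?_
      have h3 : (2 * (t 0).re ^ 2 + ∑ k ∈ range n, ‖t (k + 1)‖ ^ 2) ^ (1 / P) ≤
          (3 / 2 * (2 * (t 0).re) ^ 2) ^ (1 / P) := by
        apply Real.rpow_le_rpow
        · have : 0 ≤ ∑ k ∈ range n, ‖t (k + 1)‖ ^ 2 := Finset.sum_nonneg fun k _ => by positivity
          positivity
        · nlinarith
        · positivity
      have hb0 : (0 : ℝ) < 2 * (t 0).re := by linarith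
      have h4 : (3 / 2 * (2 * (t 0).re) ^ 2) ^ (1 / P) =
          (3 / 2) ^ (1 / P) * (2 * (t 0).re) ^ (2 / P) := by
        rw [Real.mul_rpow (by norm_num) (by positivity)]
        congr 1
        rw [← Real.rpow_natCast, ← Real.rpow_mul hb0.le]
        congr 1
        push_cast
        ring
      have h5 : (2 * (t 0).re) ^ ((P - 2) / P) * (2 * (t 0).re) ^ (2 / P) = 2 * (t 0).re := by
        rw [← Real.rpow_add hb0, ← add_div, sub_add_cancel, div_self hP0.ne', Real.rpow_one]
      rw [← heq]
      have h6 : N * (2 * (t 0).re) ^ ((P - 2) / P) *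
          (2 * (t 0).re ^ 2 + ∑ k ∈ range n, ‖t (k + 1)‖ ^ 2) ^ (1 / P) ≤
          N * (2 * (t 0).re) ^ ((P - 2) / P) * ((3 / 2) ^ (1 / P) * (2 * (t 0).re) ^ (2 / P)) := by
        rw [← h4]
        exact mul_le_mul_of_nonneg_left h3 (by positivity)
      refine h6.trans (le_of_eq ?_)
      calc N * (2 * (t 0).re) ^ ((P - 2) / P) * ((3 / 2) ^ (1 / P) * (2 * (t 0).re) ^ (2 / P)) =
          N * (3 / 2) ^ (1 / P) * ((2 * (t 0).re) ^ ((P - 2) / P) * (2 * (t 0).re) ^ (2 / P)) := by
            ring
        _ = _ := by rw [h5]; ring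
    · rw [← h0] at hr ⊢
      have hz : ∑ k ∈ range n, ‖t (k + 1)‖ ^ 2 = 0 := by
        have : 0 ≤ ∑ k ∈ range n, ‖t (k + 1)‖ ^ 2 := Finset.sum_nonneg fun k _ => by positivity
        nlinarith
      rw [Finset.sum_eq_zero_iff_of_nonneg (fun k _ => by positivity)] at hz
      rw [Finset.sum_range_succ', Finset.sum_eq_zero]
      · rw [mom_zero hf]
        simp [← h0]
      · intro k hk
        have : t (k + 1) = 0 := by
          have := hz k hk
          simpa using this
        rw [this]
        simp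
  · intro n
    refine (l2_sq hf hsq n).trans (hsq2.trans ?_)
    have h1 : A ^ (1 / (P - 1)) = N ^ (P / (P - 1)) := by
      rw [hAN, ← Real.rpow_mul hN0.le]
      congr 1
      ring
    rw [h1]
    have h2 : N ^ (P / (P - 1)) ≤ N ^ (1 : ℝ) := by
      apply Real.rpow_le_rpow_of_exponent_ge hN0 hN1
      rw [le_div_iff₀ (by linarith)]
      linarith
    rw [Real.rpow_one] at h2
    nlinarith

end

/-- If every `M` that admits a good moment sequence is at least `L`, then
`c(p) ≥ L (2 / 3) ^ (1 / p)` for all `p ≥ 2`. -/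
theorem le_c {L : ℝ} (hL : L ≤ 1) (h : ∀ (M : ℝ) (m : ℕ → ℂ), Good M m → L ≤ M) (p : ℝ≥0∞)
    (hp : 2 ≤ p) : ENNReal.ofReal (L * (2 / 3) ^ (1 / p.toReal)) ≤ c p := by
  by_cases htop : p = ∞
  · subst htop
    simp only [ENNReal.toReal_top, div_zero, Real.rpow_zero, mul_one]
    exact le_c_top h
  have hP : 2 ≤ p.toReal := by
    have := ENNReal.toReal_mono htop hp
    simpa using this
  refine le_iInf fun ⟨f, hf⟩ => ?_
  simp only
  by_cases hN : eLpNorm (autoconv f) p volume = ∞
  · rw [hN]
    exact le_top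
  rw [ENNReal.ofReal_le_iff_le_toReal hN]
  have hr0 : (0 : ℝ) < (2 / 3) ^ (1 / p.toReal) := by positivity
  have hr1 : (2 / 3 : ℝ) ^ (1 / p.toReal) ≤ 1 :=
    Real.rpow_le_one (by norm_num) (by norm_num) (by positivity)
  rcases le_total (eLpNorm (autoconv f) p volume).toReal 1 with h1 | h1
  · have h2 := h _ _ (good_lp hf hp htop hN h1)
    have h3 : (3 / 2 : ℝ) ^ (1 / p.toReal) * (2 / 3) ^ (1 / p.toReal) = 1 := by
      rw [← Real.mul_rpow (by norm_num) (by norm_num)]
      norm_num
    calc L * (2 / 3) ^ (1 / p.toReal) ≤ ((eLpNorm (autoconv f) p volume).toReal *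
        (3 / 2) ^ (1 / p.toReal)) * (2 / 3) ^ (1 / p.toReal) :=
          mul_le_mul_of_nonneg_right h2 hr0.le
      _ = (eLpNorm (autoconv f) p volume).toReal *
        ((3 / 2) ^ (1 / p.toReal) * (2 / 3) ^ (1 / p.toReal)) := by ring
      _ = _ := by rw [h3, mul_one]
  · have h2 : L * (2 / 3) ^ (1 / p.toReal) ≤ 1 := by
      rcases le_total 0 L with h0 | h0
      · calc L * (2 / 3) ^ (1 / p.toReal) ≤ 1 * 1 := mul_le_mul hL hr1 hr0.le zero_le_one
          _ = 1 := one_mul 1
      · exact (mul_nonpos_of_nonpos_of_nonneg h0 hr0.le).trans zero_le_one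
    linarith

end Run7.h583
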