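import Pool.Agent.Run7.h583.Leaf2

/-! Branch and bound trees. -/

set_option autoImplicit false

namespace Run7.h583

theorem upd_eq (f : ℕ → ℤ) (k : ℕ) (v : ℤ) (j : ℕ) : upd f k v j = if j = k then v else f j := by
  unfold upd
  by_cases h : j = k
  · have : Nat.beq j k = true := by
      rw [h]
      exact Nat.beq_refl k
    rw [if_pos h, this]
  · have : Nat.beq j k = false := by
      rw [Bool.eq_false_iff]
      intro h1
      exact h (Nat.eq_of_beq_eq_true h1)
    rw [if_neg h, this]

/-- bisection of a box -/
theorem Claim.split {p q : ℕ} {lo hi : ℕ → ℤ} (k : ℕ) (v : ℤ) (h1 : Claim p q lo (upd hi k v))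
    (h2 : Claim p q (upd lo k v) hi) : Claim p q lo hi := by
  intro M m hg hbox
  rcases le_total (16384 * (m (k + 1)).im) (v : ℝ) with h | h
  · refine h1 M m hg fun j => ⟨(hbox j).1, ?_⟩
    rw [upd_eq]
    split_ifs with hj
    · rw [hj]
      exact h
    · exact (hbox j).2
  · refine h2 M m hg fun j => ⟨?_, (hbox j).2⟩
    rw [upd_eq]
    split_ifs with hj
    · rw [hj]
      exact h
    · exact (hbox j).1

theorem Tree.sound {p q : ℕ} : ∀ (t : Tree) {lo hi : ℕ → ℤ}, t.check p q lo hi = true →
    Claim p q lo hi
  | leaf d, _, _, h => Dat.ok_claim (d := d) h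
  | node k v l r, lo, hi, h => by
    have h' : (l.check p q lo (upd hi k v) && r.check p q (upd lo k v) hi) = true := h
    rw [Bool.and_eq_true] at h'
    exact Claim.split k v (Tree.sound l h'.1) (Tree.sound r h'.2)

/-- the root claim gives the bound for all good moment sequences -/
theorem Claim.final {p q : ℕ} (h : Claim p q lo0 hi0) {M : ℝ} {m : ℕ → ℂ} (hg : Good M m) :
    (p : ℝ) ≤ q * M := by
  have key : ∀ m : ℕ → ℂ, Good M m → 0 ≤ (m 2).im → (p : ℝ) ≤ q * M := by
    intro m hg h2
    refine h M m hg fun k => ?_
    have h3 := (Complex.abs_im_le_norm (m (k + 1))).trans (hg.bd (k + 1))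
    rw [abs_le] at h3
    constructor
    · unfold lo0
      by_cases hk : k = 1
      · subst hk
        show (((0 : ℕ) : ℤ) : ℝ) ≤ _
        norm_num
        exact h2
      · have : Nat.beq k 1 = false := by
          rw [Bool.eq_false_iff]
          intro h1
          exact hk (Nat.eq_of_beq_eq_true h1)
        rw [this]
        have e : ((Int.negSucc 16383 : ℤ) : ℝ) = -16384 := by
          rw [Int.cast_negSucc]
          norm_num
        simp only [e]
        linarith
    · show _ ≤ (((16384 : ℕ) : ℤ) : ℝ)
      push_cast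
      linarith
  rcases le_total 0 (m 2).im with h0 | h0
  · exact key m hg h0
  · refine key _ hg.conj ?_
    rw [Complex.conj_im]
    linarith

end Run7.h583
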