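import Pool.Agent.Run7.h583.Lift

/-! The trigonometric polynomials attached to integer polynomials. -/

set_option autoImplicit false

open Finset Polynomial

namespace Run7.h583

/-- coefficients of the trigonometric polynomial `(Re - Im) (z ^ (-n) P z)` -/
noncomputable def tcf (P : ℤ[X]) (n k : ℕ) : ℂ :=
  if k = 0 then ((P.coeff n : ℤ) : ℂ)
  else ((P.coeff (n + k) + P.coeff (n - k) : ℤ) : ℂ) +
    ((P.coeff (n + k) - P.coeff (n - k) : ℤ) : ℂ) * Complex.I

/-- `Re - Im` -/
def rmi (z : ℂ) : ℝ := z.re - z.im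

theorem rmi_add (z w : ℂ) : rmi (z + w) = rmi z + rmi w := by
  simp only [rmi, Complex.add_re, Complex.add_im]
  ring

theorem rmi_sum {ι : Type*} (s : Finset ι) (f : ι → ℂ) :
    rmi (∑ i ∈ s, f i) = ∑ i ∈ s, rmi (f i) := by
  simp only [rmi, Complex.re_sum, Complex.im_sum, sum_sub_distrib]

theorem rmi_real_mul (a : ℝ) (z : ℂ) : rmi ((a : ℂ) * z) = a * rmi z := by
  simp only [rmi, Complex.mul_re, Complex.mul_im, Complex.ofReal_re, Complex.ofReal_im]
  ring

theorem rmi_eq_tp (P : ℤ[X]) (n : ℕ) (hP : P.natDegree ≤ 2 * n) (v : ℝ) :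
    rmi (((starRingEnd ℂ) (e 1 v)) ^ n * aeval (e 1 v) P) = tp (tcf P n) n v := by
  set z := e 1 v with hz
  set w := (starRingEnd ℂ) z with hw
  have hzw : z * w = 1 := by
    rw [hw, Complex.mul_conj, Complex.normSq_eq_norm_sq, hz, norm_e]
    norm_num
  have hzwp : ∀ k, z ^ k * w ^ k = 1 := fun k => by rw [← mul_pow, hzw, one_pow]
  rw [aeval_eq_sum_range' (show P.natDegree < n + (n + 1) by omega), sum_range_add, mul_add,
    rmi_add, sum_range_succ', ← sum_range_reflect]
  unfold tp
  rw [sum_range_succ', mul_add, rmi_add, ← add_assoc, mul_sum, mul_sum, rmi_sum, rmi_sum,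
    ← sum_add_distrib]
  congr 1
  · refine sum_congr rfl fun k hk => ?_
    rw [mem_range] at hk
    have h1 : w ^ n * (P.coeff (n - 1 - k) • z ^ (n - 1 - k)) =
        (P.coeff (n - (k + 1)) : ℂ) * w ^ (k + 1) := by
      rw [zsmul_eq_mul, show n - 1 - k = n - (k + 1) by omega]
      have : w ^ n = w ^ (n - (k + 1)) * w ^ (k + 1) := by
        rw [← pow_add]
        congr 1
        omega
      rw [this]
      linear_combination ((P.coeff (n - (k + 1)) : ℂ) * w ^ (k + 1)) * hzwp (n - (k + 1))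
    have h2 : w ^ n * (P.coeff (n + (k + 1)) • z ^ (n + (k + 1))) =
        (P.coeff (n + (k + 1)) : ℂ) * z ^ (k + 1) := by
      rw [zsmul_eq_mul, pow_add]
      linear_combination ((P.coeff (n + (k + 1)) : ℂ) * z ^ (k + 1)) * hzwp n
    rw [h1, h2]
    have h3 : w ^ (k + 1) = (starRingEnd ℂ) (z ^ (k + 1)) := by rw [map_pow]
    rw [h3, e_pow (k + 1) v]
    unfold tcf rmi
    rw [if_neg (by omega)]
    push_cast
    simp only [Complex.add_re, Complex.add_im, Complex.sub_re, Complex.sub_im, Complex.mul_re,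
      Complex.mul_im, Complex.intCast_re, Complex.intCast_im, Complex.conj_re, Complex.conj_im,
      Complex.I_re, Complex.I_im]
    ring
  · have h1 : w ^ n * (P.coeff (n + 0) • z ^ (n + 0)) = (P.coeff n : ℂ) := by
      rw [zsmul_eq_mul, add_zero]
      linear_combination (P.coeff n : ℂ) * hzwp n
    rw [h1]
    unfold tcf rmi
    rw [if_pos rfl, e_zero]
    simp

/-- the value of the autocorrelation polynomial on the unit circle -/
theorem rmi_cor (r s : ℕ → ℤ) (n : ℕ) (z : ℂ) (hz : z * (starRingEnd ℂ) z = 1) :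
    rmi (((starRingEnd ℂ) z) ^ (n - 1) * aeval z (corP r s n)) =
      Complex.normSq (aeval z (pf r n) + Complex.I * aeval z (pf s n)) := by
  set w := (starRingEnd ℂ) z with hw
  have key : ∀ a : ℕ → ℤ, w ^ (n - 1) * aeval z (pb a n) = (starRingEnd ℂ) (aeval z (pf a n)) := by
    intro a
    unfold pf pb
    rw [map_sum, map_sum, map_sum, mul_sum]
    refine sum_congr rfl fun j hj => ?_
    rw [mem_range] at hj
    simp only [map_mul, map_pow, aeval_X, eq_intCast, map_intCast]
    have : w ^ (n - 1) = w ^ (n - 1 - j) * w ^ j := by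
      rw [← pow_add]
      congr 1
      omega
    rw [this, ← hw]
    have h1 : z ^ (n - 1 - j) * w ^ (n - 1 - j) = 1 := by rw [← mul_pow, hz, one_pow]
    linear_combination ((a j : ℂ) * w ^ j) * h1
  have h1 : w ^ (n - 1) * aeval z (corP r s n) =
      (aeval z (pf r n) + aeval z (pf s n)) * (starRingEnd ℂ) (aeval z (pf r n)) +
      (aeval z (pf s n) - aeval z (pf r n)) * (starRingEnd ℂ) (aeval z (pf s n)) := by
    rw [← key r, ← key s]
    unfold corP
    simp only [map_add, map_mul, map_sub]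
    ring
  rw [h1]
  unfold rmi
  simp only [Complex.normSq_apply, Complex.add_re, Complex.add_im, Complex.sub_re, Complex.sub_im,
    Complex.mul_re, Complex.mul_im, Complex.conj_re, Complex.conj_im, Complex.I_re, Complex.I_im]
  ring

theorem cor_tp_nonneg (r s : ℕ → ℤ) (D : ℕ) (v : ℝ) :
    0 ≤ tp (tcf (corP r s (D + 1)) D) D v := by
  have hz : e 1 v * (starRingEnd ℂ) (e 1 v) = 1 := by
    rw [Complex.mul_conj, Complex.normSq_eq_norm_sq, norm_e]
    norm_num
  have h := rmi_cor r s (D + 1) (e 1 v) hz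
  rw [← rmi_eq_tp _ _ ((natDegree_corP r s (D + 1)).trans (by omega))]
  rw [Nat.add_sub_cancel] at h
  rw [h]
  exact Complex.normSq_nonneg _

/-- the polynomial of the sum of squares on the arc -/
noncomputable def sosP (ar ai br bi : ℕ → ℤ) : ℤ[X] :=
  C 2 * corP ar ai 33 + (X ^ 2 + 1) * corP br bi 32

theorem natDegree_sosP (ar ai br bi : ℕ → ℤ) : (sosP ar ai br bi).natDegree ≤ 64 := by
  unfold sosP
  refine natDegree_add_le_of_degree_le ?_ ?_
  · refine natDegree_mul_le.trans ?_
    have h1 := natDegree_corP ar ai 33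
    have h2 : (C (2 : ℤ)).natDegree = 0 := natDegree_C _
    omega
  · refine natDegree_mul_le.trans ?_
    have h1 := natDegree_corP br bi 32
    have h2 : ((X : ℤ[X]) ^ 2 + 1).natDegree ≤ 2 := by
      refine natDegree_add_le_of_degree_le ?_ ?_
      · rw [natDegree_X_pow]
      · rw [natDegree_one]
        omega
    omega

theorem sos_tp_nonneg (ar ai br bi : ℕ → ℤ) (u : ℝ) (hu : |u| ≤ 1 / 2) :
    0 ≤ tp (tcf (sosP ar ai br bi) 32) 32 u := by
  have hz : e 1 u * (starRingEnd ℂ) (e 1 u) = 1 := by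
    rw [Complex.mul_conj, Complex.normSq_eq_norm_sq, norm_e]
    norm_num
  have h1 := rmi_cor ar ai 33 (e 1 u) hz
  have h2 := rmi_cor br bi 32 (e 1 u) hz
  rw [← rmi_eq_tp _ _ (natDegree_sosP ar ai br bi)]
  set z := e 1 u with hzd
  set w := (starRingEnd ℂ) z with hw
  have hcos : 0 ≤ z.re := by
    rw [hzd]
    unfold e
    rw [Complex.exp_ofReal_mul_I_re]
    rw [abs_le] at hu
    apply Real.cos_nonneg_of_neg_pi_div_two_le_of_le
    · push_cast
      nlinarith [Real.pi_pos]
    · push_cast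
      nlinarith [Real.pi_pos]
  have h3 : w ^ 32 * aeval z (sosP ar ai br bi) =
      ((2 : ℝ) : ℂ) * (w ^ 32 * aeval z (corP ar ai 33)) +
      ((2 * z.re : ℝ) : ℂ) * (w ^ 31 * aeval z (corP br bi 32)) := by
    unfold sosP
    have h4 : ((2 * z.re : ℝ) : ℂ) = z + w := by
      rw [hw, Complex.add_conj]
    rw [h4]
    simp only [map_add, map_mul, aeval_X, map_pow, map_one, eq_intCast, Int.cast_ofNat, map_ofNat,
      Complex.ofReal_ofNat]
    linear_combination (w ^ 31 * z * aeval z (corP br bi 32)) * hz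
  rw [h3, rmi_add, rmi_real_mul, rmi_real_mul]
  rw [show 33 - 1 = 32 from rfl] at h1
  rw [show 32 - 1 = 31 from rfl] at h2
  rw [h1, h2]
  have a1 := Complex.normSq_nonneg (aeval z (pf ar 33) + Complex.I * aeval z (pf ai 33))
  have a2 := Complex.normSq_nonneg (aeval z (pf br 32) + Complex.I * aeval z (pf bi 32))
  exact add_nonneg (mul_nonneg (by norm_num) a1) (mul_nonneg (by linarith) a2)

end Run7.h583
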